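import Pool.Agent.NCD.Main
import Pool.Agent.NC.Defs

/-!
# The descent part of the theorem, in terms of the definitions of folder `NC`
-/

namespace Pool.Agent.NCD

open Pool.Agent.PT Pool.Agent.PT.SD Pool.Agent.QT

theorem w_one {d : ℤ} (h : Typ1 d) : NC.w d = 1 := by
  have h1 := h.pos
  have h2 := h.four
  have h3 := h.three
  unfold NC.w
  by_cases h6 : (3 : ℤ) ∣ d
  · rw [if_pos h6, if_neg (by omega), if_pos h2, if_pos h1]
  · rw [if_neg h6, if_neg (by omega), if_pos h2, if_pos (by omega), mul_one]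

theorem w_two {d : ℤ} (h : Typ2 d) : NC.w d = 1 := by
  have h1 := h.neg
  have h2 := h.eight
  have h3 := h.three
  unfold NC.w
  by_cases h6 : (3 : ℤ) ∣ d
  · rw [if_pos h6, if_pos (by omega), if_pos (by omega)]
  · rw [if_neg h6, if_pos (by omega), if_neg (by omega), if_neg (by omega)]
    norm_num

theorem w_three {d : ℤ} (h : Typ3 d) : NC.w d = 1 := by
  have h1 := h.pos
  have h2 := h.eight
  have h3 := h.three
  unfold NC.w
  rw [if_neg (by omega), if_neg (by omega), if_neg (by omega), if_neg (by omega)]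
  norm_num

theorem w_four {d : ℤ} (h : Typ4 d) : NC.w d = 1 := by
  have h1 := h.neg
  have h2 := h.eight
  have h3 := h.three
  unfold NC.w
  by_cases h6 : (3 : ℤ) ∣ d
  · rw [if_pos h6, if_neg (by omega), if_neg (by omega), if_neg (by omega)]
  · rw [if_neg h6, if_neg (by omega), if_neg (by omega), if_neg (by omega)]
    norm_num

/-- Part 5: the classes of `p`. -/
theorem exists_class_E (n : ℤ) (hn : Squarefree n) (h6 : ¬ (0 < n ∧ 6 ∣ n)) :
    ∃ c : ℕ, c.Coprime (24 * n.natAbs) ∧ ∀ p : ℕ, p.Prime → ¬ p ∣ 24 * n.natAbs →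
      IsSquare ((c * p : ℕ) : ZMod (24 * n.natAbs)) →
      NC.w (n * p) = 1 ∧ Finite (NC.E (n * p)).toAffine.Point := by
  obtain ⟨c, hc, h⟩ := main_finite n hn h6
  refine ⟨c, hc, fun p hp hpn hpc => ?_⟩
  obtain ⟨h1, h2⟩ := h p hp hpn hpc
  refine ⟨?_, h2⟩
  rcases h1 with h1 | h1 | h1 | h1
  · exact w_one h1
  · exact w_two h1
  · exact w_three h1
  · exact w_four h1

end Pool.Agent.NCD
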