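import Pool.Agent.NCD.Core
import Pool.Agent.QG.NCrt

/-!
# The class of `p`
-/

namespace Pool.Agent.NCD

open scoped BigOperators
open Pool.Agent.PT Pool.Agent.PT.SD Pool.Agent.QT Pool.Agent.QG

/-! BEGIN K13 -/

private theorem K13_abs {n : ℤ} (hn : Squarefree n) :
    (n.natAbs : ℤ) = (if n % 2 = 0 then 2 else 1) * ∏ i, (fam n i : ℤ) := by
  have hsq : Squarefree n.natAbs := Int.squarefree_natAbs.2 hn
  have h1 : ∏ p ∈ n.natAbs.primeFactors, p = n.natAbs := Nat.prod_primeFactors_of_squarefree hsq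
  have h2 : ∏ i, (fam n i : ℤ) = ∏ q ∈ oprimes n, (q : ℤ) :=
    Finset.prod_coe_sort (oprimes n) fun q => (q : ℤ)
  have hn0 : n.natAbs ≠ 0 := Int.natAbs_ne_zero.2 hn.ne_zero
  rw [h2]
  by_cases h : n % 2 = 0
  · rw [if_pos h]
    have h3 : 2 ∈ n.natAbs.primeFactors := Nat.mem_primeFactors.2 ⟨Nat.prime_two, by omega, hn0⟩
    have h4 := Finset.mul_prod_erase n.natAbs.primeFactors (fun q => q) h3
    rw [h1] at h4
    unfold oprimes
    conv_lhs => rw [← h4]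
    push_cast
    rfl
  · rw [if_neg h, one_mul]
    have h3 : oprimes n = n.natAbs.primeFactors := by
      unfold oprimes
      refine Finset.erase_eq_of_notMem fun h5 => ?_
      have h6 : 2 ∣ n.natAbs := Nat.dvd_of_mem_primeFactors h5
      omega
    rw [h3]
    conv_lhs => rw [← h1]
    push_cast
    rfl

/-- For a squarefree integer: `n = s ∏ fam n i` with the product over the odd primes of `n` and
`s = ± 1` (`n` odd) or `± 2` (`n` even). -/
theorem prod_fam (n : ℤ) (hn : Squarefree n) :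
    n = (if 0 < n then 1 else -1) * (if n % 2 = 0 then 2 else 1) * ∏ i, (fam n i : ℤ) := by
  rw [mul_assoc, ← K13_abs hn]
  by_cases h : 0 < n
  · rw [if_pos h, one_mul]
    omega
  · rw [if_neg h]
    omega

/-- Choice of the class. For all `t` (a symbol for each odd prime of `n`), `t3` (for `3`, if `3` does not
divide `n`) and an odd `r8` there is `c`, prime to `6 n`, such that every prime `p = c mod 24 |n|` has
`p = r8 mod 8`, `lg p q = t q` for the odd primes `q` of `n`, and `lg p 3 = t3` if `3` does not divide `n`;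
such a `p` does not divide `6 n`. (`QG.crt` for the family `fam (3 * n)`, `QG.residue_line` with
`n0 = 1`; all primes of the family divide `24 n`.) -/
theorem exists_class (n : ℤ) (hn : n ≠ 0) (t : {r : ℕ // r ∈ oprimes n} → ZMod 2) (t3 : ZMod 2)
    (r8 : ℕ) (hr : r8 % 2 = 1) : ∃ c : ℕ, c.Coprime (6 * n).natAbs ∧
    ∀ p : ℕ, p.Prime → p ≡ c [MOD 24 * n.natAbs] → p % 8 = r8 % 8 ∧ (∀ i, lg p (fam n i) = t i) ∧
      (¬ (3 : ℤ) ∣ n → lg p 3 = t3) ∧ ¬ (p : ℤ) ∣ 6 * n := by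
  classical
  have hn3 : 3 * n ≠ 0 := mul_ne_zero (by norm_num) hn
  have hq := fam_odd (3 * n)
  -- membership
  have hfam : ∀ l : ℕ, l.Prime → l ≠ 2 → (l : ℤ) ∣ 3 * n → ∃ i, l = fam (3 * n) i := by
    intro l hl hl2 hlD
    have h1 : l ∈ oprimes (3 * n) := Finset.mem_erase.2 ⟨hl2, Nat.mem_primeFactors.2
      ⟨hl, Int.natCast_dvd.1 hlD, Int.natAbs_ne_zero.2 hn3⟩⟩
    exact ⟨⟨l, h1⟩, rfl⟩
  have hdv : ∀ i, fam (3 * n) i ∣ 24 * n.natAbs := by
    intro i
    have h1 : fam (3 * n) i ∣ (3 * n).natAbs :=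
      Nat.dvd_of_mem_primeFactors (Finset.mem_of_mem_erase i.2)
    rw [Int.natAbs_mul] at h1
    have h2 : (Int.natAbs 3) * n.natAbs ∣ 24 * n.natAbs := Nat.mul_dvd_mul_right (by norm_num) _
    exact h1.trans h2
  have hres : ∀ i : {r : ℕ // r ∈ oprimes (3 * n)}, ∃ r : ℕ, ¬ fam (3 * n) i ∣ r ∧
      ∀ m : ℤ, (m : ZMod (fam (3 * n) i)) = r →
        lg (1 * m) (fam (3 * n) i) = if h : i.1 ∈ oprimes n then t ⟨i.1, h⟩ else t3 := by
    intro i
    refine residue_line (fam (3 * n) i) (hq.prime i) (hq.odd i) 1 ?_ _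
    intro h1
    have h2 := Int.eq_one_of_dvd_one (by positivity) h1
    have h3 := (hq.prime i).one_lt
    have h4 : fam (3 * n) i = 1 := by exact_mod_cast h2
    omega
  choose r hr1 hr2 using hres
  obtain ⟨c, hc, hc16⟩ := crt (fam (3 * n)) hq r r8
  have hndvd : ∀ z : ℕ, ∀ i, z ≡ r i [MOD fam (3 * n) i] → ¬ fam (3 * n) i ∣ z := by
    intro z i hz h1
    exact hr1 i ((Nat.modEq_zero_iff_dvd.1 (hz.symm.trans (Nat.modEq_zero_iff_dvd.2 h1))))
  have h6 : ∀ l : ℕ, l.Prime → l ≠ 2 → (l : ℤ) ∣ 6 * n → (l : ℤ) ∣ 3 * n := by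
    intro l hl hl2 h1
    have h2 : (6 : ℤ) * n = 2 * (3 * n) := by ring
    rw [h2] at h1
    rcases (Nat.prime_iff_prime_int.1 hl).dvd_or_dvd h1 with h3 | h3
    · exact absurd ((Nat.prime_dvd_prime_iff_eq hl Nat.prime_two).1 (by exact_mod_cast h3)) hl2
    · exact h3
  refine ⟨c, ?_, fun p hp hpc => ?_⟩
  · refine Nat.Coprime.symm (Nat.coprime_of_dvd fun l hl hl1 hl2 => ?_)
    by_cases h2 : l = 2
    · subst h2
      unfold Nat.ModEq at hc16
      omega
    · obtain ⟨i, rfl⟩ := hfam l hl h2 (h6 l hl h2 (Int.natCast_dvd.2 hl1))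
      exact hndvd c i (hc i) hl2
  · have hpq : ∀ i, p ≡ r i [MOD fam (3 * n) i] := fun i => (hpc.of_dvd (hdv i)).trans (hc i)
    have hp8 : p % 8 = r8 % 8 := by
      have h1 : p ≡ c [MOD 8] := hpc.of_dvd (Dvd.dvd.mul_right (by norm_num) _)
      have h2 : c ≡ r8 [MOD 8] := hc16.of_dvd (by norm_num)
      exact h1.trans h2
    have hlg : ∀ i, lg p (fam (3 * n) i) =
        if h : i.1 ∈ oprimes n then t ⟨i.1, h⟩ else t3 := by
      intro i
      have h1 := hr2 i p (by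
        rw [Int.cast_natCast]
        exact (ZMod.natCast_eq_natCast_iff _ _ _).2 (hpq i))
      rwa [one_mul] at h1
    refine ⟨hp8, fun i => ?_, fun h3 => ?_, fun h1 => ?_⟩
    · have hi := i.2
      have h1 : i.1 ∈ oprimes (3 * n) := by
        unfold oprimes at hi ⊢
        rw [Finset.mem_erase, Nat.mem_primeFactors] at hi ⊢
        refine ⟨hi.1, hi.2.1, ?_, Int.natAbs_ne_zero.2 hn3⟩
        rw [Int.natAbs_mul]
        exact Dvd.dvd.mul_left hi.2.2.1 _
      have h2 := hlg ⟨i.1, h1⟩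
      rw [dif_pos hi] at h2
      exact h2
    · obtain ⟨i, hi⟩ := hfam 3 Nat.prime_three (by norm_num) (Dvd.intro _ rfl)
      have h2 := hlg i
      have h4 : i.1 = 3 := hi.symm
      have h5 : ¬ i.1 ∈ oprimes n := by
        rw [h4]
        intro h6
        have h7 : 3 ∣ n.natAbs := Nat.dvd_of_mem_primeFactors (Finset.mem_of_mem_erase h6)
        exact h3 (Int.natCast_dvd.2 h7)
      rw [dif_neg h5, ← hi] at h2
      exact h2
    · by_cases h2 : p = 2
      · subst h2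
        omega
      · obtain ⟨i, hi⟩ := hfam p hp h2 (h6 p hp h2 h1)
        refine hndvd p i (hpq i) ?_
        rw [← hi]

/-! END K13 -/

/-! BEGIN K17 -/

private theorem K17_eight : ∀ x y s : ZMod 8, x * x = 1 → y * y = 1 → x * y = s * s → x = y := by
  decide

private theorem K17_unit (p : ℕ) (h : p % 2 = 1) : (p : ZMod 8) * p = 1 := by
  have h1 : (p : ZMod 8) = ((p % 8 : ℕ) : ZMod 8) := by
    rw [ZMod.natCast_mod]
  have h2 : p % 8 = 1 ∨ p % 8 = 3 ∨ p % 8 = 5 ∨ p % 8 = 7 := by omega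
  rw [h1]
  rcases h2 with h | h | h | h <;> rw [h] <;> decide

/-- The square version of `exists_class`: the conditions depend only on the symbols (Dirichlet's
theorem gives a prime `c` with the conditions). -/
theorem exists_class_sq (n : ℤ) (hn : n ≠ 0) (t : {r : ℕ // r ∈ oprimes n} → ZMod 2) (t3 : ZMod 2)
    (r8 : ℕ) (hr : r8 % 2 = 1) : ∃ c : ℕ, c.Coprime (24 * n.natAbs) ∧
    ∀ p : ℕ, p.Prime → ¬ p ∣ 24 * n.natAbs → IsSquare ((c * p : ℕ) : ZMod (24 * n.natAbs)) →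
      p % 8 = r8 % 8 ∧ (∀ i, lg p (fam n i) = t i) ∧
      (¬ (3 : ℤ) ∣ n → lg p 3 = t3) ∧ ¬ (p : ℤ) ∣ 6 * n := by
  obtain ⟨c0, hc0, h0⟩ := exists_class n hn t t3 r8 hr
  have hM : 24 * n.natAbs ≠ 0 := mul_ne_zero (by norm_num) (Int.natAbs_ne_zero.2 hn)
  have hcop : c0.Coprime (24 * n.natAbs) := by
    rw [Int.natAbs_mul] at hc0
    have h1 : c0.Coprime (2 * 3) := hc0.coprime_mul_right_right
    have h2 : c0.Coprime n.natAbs := hc0.coprime_mul_left_right
    have h3 : c0.Coprime 2 := h1.coprime_mul_right_right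
    have h4 : c0.Coprime 3 := h1.coprime_mul_left_right
    have h5 : c0.Coprime (2 ^ 3 * 3) := Nat.Coprime.mul_right (h3.pow_right 3) h4
    exact Nat.Coprime.mul_right h5 h2
  obtain ⟨p0, -, hp0, hpc⟩ := Nat.forall_exists_prime_gt_and_modEq 0 hM hcop
  obtain ⟨a1, a2, a3, a4⟩ := h0 p0 hp0 hpc
  -- primes dividing `24 n` divide `6 n`, and conversely
  have h24 : ∀ p : ℕ, p.Prime → p ∣ 24 * n.natAbs → (p : ℤ) ∣ 6 * n := by
    intro p hp hd
    have h1 : p ∣ 2 ^ 3 * 3 * n.natAbs := hd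
    rcases (Nat.Prime.dvd_mul hp).1 h1 with h2 | h2
    · rcases (Nat.Prime.dvd_mul hp).1 h2 with h3 | h3
      · rw [(Nat.prime_dvd_prime_iff_eq hp Nat.prime_two).1 (hp.dvd_of_dvd_pow h3)]
        exact Dvd.dvd.mul_right (by norm_num) _
      · rw [(Nat.prime_dvd_prime_iff_eq hp Nat.prime_three).1 h3]
        exact Dvd.dvd.mul_right (by norm_num) _
    · exact (Int.natCast_dvd.2 h2).mul_left _
  have h6 : ∀ p : ℕ, p.Prime → (p : ℤ) ∣ 6 * n → p ∣ 24 * n.natAbs := by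
    intro p hp hd
    have h1 : p ∣ 6 * n.natAbs := by
      have := Int.natCast_dvd.1 hd
      rwa [Int.natAbs_mul] at this
    have h2 : 24 * n.natAbs = 4 * (6 * n.natAbs) := by ring
    rw [h2]
    exact h1.mul_left _
  refine ⟨p0, ?_, fun p hp hpn hsq => ?_⟩
  · exact (Nat.Prime.coprime_iff_not_dvd hp0).2 fun hd => a4 (h24 p0 hp0 hd)
  -- the square condition modulo a divisor
  have hdiv : ∀ m : ℕ, m ∣ 24 * n.natAbs → IsSquare ((p0 * p : ℕ) : ZMod m) := by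
    intro m hm
    obtain ⟨s, hs⟩ := hsq
    refine ⟨ZMod.castHom hm (ZMod m) s, ?_⟩
    rw [← map_mul, ← hs, map_natCast]
  have hodd : ∀ l : ℕ, l.Prime → ¬ (l : ℤ) ∣ 6 * n → l % 2 = 1 := by
    intro l hl hd
    have : l ≠ 2 := by
      rintro rfl
      exact hd (Dvd.dvd.mul_right (by norm_num) _)
    exact hl.eq_two_or_odd.resolve_left this
  have hpn' : ¬ (p : ℤ) ∣ 6 * n := fun hd => hpn (h6 p hp hd)
  -- the symbols
  have hlg : ∀ q : ℕ, q.Prime → q ∣ 24 * n.natAbs → lg p q = lg p0 q := by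
    intro q hq hqn
    have : Fact q.Prime := ⟨hq⟩
    have hne : ∀ l : ℕ, l.Prime → ¬ (l : ℤ) ∣ 6 * n → ¬ (q : ℤ) ∣ (l : ℤ) := by
      intro l hl hd hql
      have h1 : q ∣ l := by exact_mod_cast hql
      have h2 := (Nat.prime_dvd_prime_iff_eq hq hl).1 h1
      rw [← h2] at hd
      exact hd (h24 q hq hqn)
    have h1 : lg ((p0 : ℤ) * p) q = 0 := by
      rw [SD.lg_eq_zero_iff]
      have := hdiv q hqn
      push_cast at this ⊢
      exact this
    rw [SD.lg_mul (hne p0 hp0 a4) (hne p hp hpn')] at h1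
    linear_combination h1 - two_zero (lg (p0 : ℤ) q)
  refine ⟨?_, fun i => ?_, fun h3 => ?_, hpn'⟩
  · obtain ⟨s, hs⟩ := hdiv 8 (Dvd.dvd.mul_right (by norm_num) _)
    have h1 : (p0 : ZMod 8) = p := K17_eight p0 p s (K17_unit p0 (hodd p0 hp0 a4))
      (K17_unit p (hodd p hp hpn')) (by push_cast at hs; exact hs)
    have h2 := (ZMod.natCast_eq_natCast_iff' _ _ _).1 h1
    omega
  · have hi : (fam n i : ℕ).Prime := (fam_odd n).prime i
    have h1 : fam n i ∣ n.natAbs := Nat.dvd_of_mem_primeFactors (Finset.mem_of_mem_erase i.2)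
    rw [hlg _ hi (h1.mul_left _), a2]
  · rw [hlg 3 Nat.prime_three (Dvd.dvd.mul_right (by norm_num) _), a3 h3]

/-! END K17 -/

/-! BEGIN K14 -/

/-- The symbol modulo `3`. -/
private theorem K14_three (p : ℕ) : (p % 3 = 1 → lg p 3 = 0) ∧ (p % 3 = 2 → lg p 3 = 1) := by
  constructor
  · intro h
    have h1 : lg (p : ℤ) 3 = lg 1 3 := by
      apply SD.lg_congr_dvd
      push_cast
      omega
    rw [h1, SD.lg_one]
  · intro h
    have h1 : lg (p : ℤ) 3 = lg 2 3 := by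
      apply SD.lg_congr_dvd
      push_cast
      omega
    rw [h1, lg_two 3 Nat.prime_three (by norm_num)]
    rfl

/-- Common part: the prime `p` of the class. -/
private theorem K14_common (n : ℤ) (hn : Squarefree n) {p : ℕ} (hp : p.Prime)
    (h : ¬ (p : ℤ) ∣ 6 * n) : Squarefree (n * p) ∧ (∀ i, p ≠ fam n i) ∧
    (p : ℤ) % 3 ≠ 0 ∧ (p : ℤ) % 2 = 1 := by
  have hpi : Prime (p : ℤ) := Nat.prime_iff_prime_int.1 hp
  have hpn : ¬ (p : ℤ) ∣ n := fun hd => h (hd.mul_left _)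
  refine ⟨?_, ?_, ?_, ?_⟩
  · rw [mul_comm]
    refine squarefree_mul_iff.2 ⟨?_, hpi.squarefree, hn⟩
    exact (hpi.irreducible.coprime_iff_not_dvd.2 hpn).isRelPrime
  · intro i hi
    apply hpn
    have h1 : fam n i ∣ n.natAbs := Nat.dvd_of_mem_primeFactors (Finset.mem_of_mem_erase i.2)
    rw [← hi] at h1
    exact Int.natCast_dvd.2 h1
  · intro h3
    have h3' : 3 ∣ p := by omega
    have h4 : 3 = p := (Nat.prime_dvd_prime_iff_eq Nat.prime_three hp).1 h3'
    apply h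
    rw [← h4]
    exact Dvd.dvd.mul_right (by norm_num) _
  · have : p ≠ 2 := by
      rintro rfl
      apply h
      exact Dvd.dvd.mul_right (by norm_num) _
    have := hp.eq_two_or_odd
    omega

/-- The choice at `3`: `n p = 1 mod 3` or `0`. -/
private theorem K14_mod3 (n : ℤ) (p : ℕ) (h3 : (p : ℤ) % 3 ≠ 0)
    (h : ¬ (3 : ℤ) ∣ n → lg p 3 = if n % 3 = 1 then 0 else 1) : n * p % 3 ≠ 2 := by
  by_cases hn : (3 : ℤ) ∣ n
  · rw [Int.mul_emod, show n % 3 = 0 by omega]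
    norm_num
  · have h1 := h hn
    have hp : (p : ℤ) % 3 = 1 ∨ (p : ℤ) % 3 = 2 := by omega
    have hn' : n % 3 = 1 ∨ n % 3 = 2 := by omega
    rcases hn' with hn' | hn'
    · rw [if_pos hn'] at h1
      rcases hp with hp | hp
      · rw [Int.mul_emod, hn', hp]
        norm_num
      · rw [(K14_three p).2 (by omega)] at h1
        exact absurd h1 (by decide)
    · rw [if_neg (by omega)] at h1
      rcases hp with hp | hp
      · rw [(K14_three p).1 (by omega)] at h1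
        exact absurd h1 (by decide)
      · rw [Int.mul_emod, hn', hp]
        norm_num

/-- The choice at `3`: `n p = 2 mod 3`. -/
private theorem K14_mod3' (n : ℤ) (p : ℕ) (h3 : (p : ℤ) % 3 ≠ 0) (hn : ¬ (3 : ℤ) ∣ n)
    (h1 : lg p 3 = if n % 3 = 1 then 1 else 0) : n * p % 3 = 2 := by
  have hp : (p : ℤ) % 3 = 1 ∨ (p : ℤ) % 3 = 2 := by omega
  have hn' : n % 3 = 1 ∨ n % 3 = 2 := by omega
  rcases hn' with hn' | hn'
  · rw [if_pos hn'] at h1
    rcases hp with hp | hp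
    · rw [(K14_three p).1 (by omega)] at h1
      exact absurd h1 (by decide)
    · rw [Int.mul_emod, hn', hp]
      norm_num
  · rw [if_neg (by omega)] at h1
    rcases hp with hp | hp
    · rw [Int.mul_emod, hn', hp]
      norm_num
    · rw [(K14_three p).2 (by omega)] at h1
      exact absurd h1 (by decide)

/-- `n > 0` odd: `exists_M1 (fam n)`, `n p = 3 mod 4`, and `n p = 1 mod 3` if `3` does not divide `n`. -/
theorem class_one (n : ℤ) (hn : Squarefree n) (h0 : 0 < n) (h2 : n % 2 = 1) :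
    ∃ c : ℕ, c.Coprime (24 * n.natAbs) ∧ ∀ p : ℕ, p.Prime → ¬ p ∣ 24 * n.natAbs →
      IsSquare ((c * p : ℕ) : ZMod (24 * n.natAbs)) →
      ¬ (p : ℤ) ∣ 6 * n ∧ Typ1 (n * p) ∧ Steps (n * p) p := by
  obtain ⟨t, hM⟩ := exists_M1 (fam n)
  obtain ⟨c, hc, h⟩ := exists_class_sq n hn.ne_zero t (if n % 3 = 1 then 0 else 1)
    (if n % 4 = 1 then 3 else 1) (by split_ifs <;> rfl)
  refine ⟨c, hc, fun p hp hpn hpc => ?_⟩
  obtain ⟨k1, k2, k3, k4⟩ := h p hp hpn hpc
  obtain ⟨m1, m2, m3, m4⟩ := K14_common n hn hp k4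
  have hT : Typ1 (n * p) := by
    refine ⟨m1, mul_pos h0 (by exact_mod_cast hp.pos), ?_, K14_mod3 n p m3 k3⟩
    by_cases h4 : n % 4 = 1
    · rw [if_pos h4] at k1
      rw [Int.mul_emod, h4, show (p : ℤ) % 4 = 3 by omega]
      norm_num
    · rw [if_neg h4] at k1
      rw [Int.mul_emod, show n % 4 = 3 by omega, show (p : ℤ) % 4 = 1 by omega]
      norm_num
  refine ⟨k4, hT, ?_⟩
  refine steps_one (fam_odd n) hp m2 hT ?_ ?_
  · conv_lhs => rw [prod_fam n hn, if_pos h0, if_neg (by omega)]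
    ring
  · have e : (fun i => lg (p : ℤ) (fam n i)) = t := funext k2
    rw [e]
    exact hM

/-- `n < 0` odd: `n p = 5 mod 8`. -/
theorem class_two (n : ℤ) (hn : Squarefree n) (h0 : n < 0) (h2 : n % 2 = 1) :
    ∃ c : ℕ, c.Coprime (24 * n.natAbs) ∧ ∀ p : ℕ, p.Prime → ¬ p ∣ 24 * n.natAbs →
      IsSquare ((c * p : ℕ) : ZMod (24 * n.natAbs)) →
      ¬ (p : ℤ) ∣ 6 * n ∧ Typ2 (n * p) ∧ Steps (n * p) p := by
  obtain ⟨t, hM⟩ := exists_M1 (fam n)
  obtain ⟨c, hc, h⟩ := exists_class_sq n hn.ne_zero t (if n % 3 = 1 then 0 else 1)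
    ((5 * n) % 8).toNat (by omega)
  refine ⟨c, hc, fun p hp hpn hpc => ?_⟩
  obtain ⟨k1, k2, k3, k4⟩ := h p hp hpn hpc
  obtain ⟨m1, m2, m3, m4⟩ := K14_common n hn hp k4
  have hT : Typ2 (n * p) := by
    refine ⟨m1, mul_neg_of_neg_of_pos h0 (by exact_mod_cast hp.pos), ?_, K14_mod3 n p m3 k3⟩
    have hn8 : n % 8 = 1 ∨ n % 8 = 3 ∨ n % 8 = 5 ∨ n % 8 = 7 := by omega
    rw [Int.mul_emod]
    rcases hn8 with h8 | h8 | h8 | h8
    · rw [h8, show (p : ℤ) % 8 = 5 by omega]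
      norm_num
    · rw [h8, show (p : ℤ) % 8 = 7 by omega]
      norm_num
    · rw [h8, show (p : ℤ) % 8 = 1 by omega]
      norm_num
    · rw [h8, show (p : ℤ) % 8 = 3 by omega]
      norm_num
  refine ⟨k4, hT, ?_⟩
  refine steps_two (fam_odd n) hp m2 hT ?_ ?_
  · conv_lhs => rw [prod_fam n hn, if_neg (by omega), if_neg (by omega)]
    ring
  · have e : (fun i => lg (p : ℤ) (fam n i)) = t := funext k2
    rw [e]
    exact hM

/-! END K14 -/

/-! BEGIN K15 -/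

/-- The choice at `2` for even `n`: `m = (n / 2) p` is `1 mod 4` with `l8 m` given. -/
private theorem K15_two (n : ℤ) (h2 : n % 4 = 2) (τ : ZMod 2) : ∃ r8 : ℕ, r8 % 2 = 1 ∧
    ∀ p : ℕ, p % 8 = r8 % 8 → n * p % 8 = 2 ∧ l8 (n / 2 * p) = τ := by
  have hm : n / 2 % 8 = 1 ∨ n / 2 % 8 = 3 ∨ n / 2 % 8 = 5 ∨ n / 2 % 8 = 7 := by omega
  have key : ∀ (p : ℕ) (s : ℤ), n / 2 * p % 8 = s → s = 1 ∨ s = 5 →
      n * p % 8 = 2 ∧ l8 (n / 2 * p) = if s = 1 then 0 else 1 := by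
    intro p s hs hs1
    have e : n * p = 2 * (n / 2 * p) := by
      have : n = 2 * (n / 2) := by omega
      calc n * (p : ℤ) = 2 * (n / 2) * p := by rw [← this]
        _ = 2 * (n / 2 * p) := by ring
    constructor
    · rw [e]
      omega
    · rw [l8_of_odd (by omega)]
      rcases hs1 with h | h
      · rw [if_pos (by omega), if_pos h]
      · rw [if_neg (by omega), if_neg (by omega)]
  have h01 : ∀ a : ZMod 2, a = 0 ∨ a = 1 := by decide
  rcases h01 τ with h | h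
  · refine ⟨(n / 2 % 8).toNat, by omega, fun p hp => ?_⟩
    have h3 := key p 1 (by
      rw [Int.mul_emod]
      rcases hm with h8 | h8 | h8 | h8
      · rw [h8, show (p : ℤ) % 8 = 1 by omega]
        norm_num
      · rw [h8, show (p : ℤ) % 8 = 3 by omega]
        norm_num
      · rw [h8, show (p : ℤ) % 8 = 5 by omega]
        norm_num
      · rw [h8, show (p : ℤ) % 8 = 7 by omega]
        norm_num) (Or.inl rfl)
    rw [if_pos rfl] at h3
    rw [h]
    exact h3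
  · refine ⟨((5 * (n / 2)) % 8).toNat, by omega, fun p hp => ?_⟩
    have h3 := key p 5 (by
      rw [Int.mul_emod]
      rcases hm with h8 | h8 | h8 | h8
      · rw [h8, show (p : ℤ) % 8 = 5 by omega]
        norm_num
      · rw [h8, show (p : ℤ) % 8 = 7 by omega]
        norm_num
      · rw [h8, show (p : ℤ) % 8 = 1 by omega]
        norm_num
      · rw [h8, show (p : ℤ) % 8 = 3 by omega]
        norm_num) (Or.inr rfl)
    rw [if_neg (by norm_num)] at h3
    rw [h]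
    exact h3

/-- A squarefree even integer is `2 mod 4`. -/
private theorem K15_mod4 (n : ℤ) (hn : Squarefree n) (h2 : n % 2 = 0) : n % 4 = 2 := by
  by_contra h
  have h4 : (2 : ℤ) * 2 ∣ n := by omega
  have h5 := hn 2 h4
  rw [Int.isUnit_iff] at h5
  omega

/-- `n > 0` even, prime to `3`: `exists_M3 (fam n)` gives `t`; `m = (n / 2) p = 1 mod 8` if
`t none = 0` and `5 mod 8` if `t none = 1` (`l8 m = t none`, `d = 2 mod 8` in both cases);
`n p = 2 mod 3`. -/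
theorem class_three (n : ℤ) (hn : Squarefree n) (h0 : 0 < n) (h2 : n % 2 = 0)
    (h3 : ¬ (3 : ℤ) ∣ n) :
    ∃ c : ℕ, c.Coprime (24 * n.natAbs) ∧ ∀ p : ℕ, p.Prime → ¬ p ∣ 24 * n.natAbs →
      IsSquare ((c * p : ℕ) : ZMod (24 * n.natAbs)) →
      ¬ (p : ℤ) ∣ 6 * n ∧ Typ3 (n * p) ∧ Steps (n * p) p := by
  obtain ⟨t, hM⟩ := exists_M3 (fam n)
  have h4 := K15_mod4 n hn h2
  obtain ⟨r8, hr8, hr⟩ := K15_two n h4 (t none)
  obtain ⟨c, hc, h⟩ := exists_class_sq n hn.ne_zero (fun i => t (some i))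
    (if n % 3 = 1 then 1 else 0) r8 hr8
  refine ⟨c, hc, fun p hp hpn hpc => ?_⟩
  obtain ⟨k1, k2, k3, k4⟩ := h p hp hpn hpc
  obtain ⟨m1, m2, m3, m4⟩ := K14_common n hn hp k4
  obtain ⟨r1, r2⟩ := hr p k1
  have hT : Typ3 (n * p) :=
    ⟨m1, mul_pos h0 (by exact_mod_cast hp.pos), r1, K14_mod3' n p m3 h3 (k3 h3)⟩
  have hn2 : n = 2 * (n / 2) := by omega
  refine ⟨k4, hT, ?_⟩
  refine steps_three (m := n / 2 * p) (fam_odd n) hp m2 hT ?_ ?_ hM r2.symm fun i => (k2 i).symm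
  · calc n * (p : ℤ) = 2 * (n / 2) * p := by rw [← hn2]
      _ = 2 * (n / 2 * p) := by ring
  · have e : n = 2 * ∏ i, (fam n i : ℤ) := by
      conv_lhs => rw [prod_fam n hn, if_pos h0, if_pos h2]
      ring
    have e2 : n / 2 = ∏ i, (fam n i : ℤ) := by
      obtain ⟨P, hP⟩ : ∃ P : ℤ, P = ∏ i, (fam n i : ℤ) := ⟨_, rfl⟩
      rw [← hP] at e ⊢
      omega
    rw [e2]
    ring

/-- `n < 0` even: the same with `exists_M4`; `n p = 1 mod 3` if `3` does not divide `n`. -/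
theorem class_four (n : ℤ) (hn : Squarefree n) (h0 : n < 0) (h2 : n % 2 = 0) :
    ∃ c : ℕ, c.Coprime (24 * n.natAbs) ∧ ∀ p : ℕ, p.Prime → ¬ p ∣ 24 * n.natAbs →
      IsSquare ((c * p : ℕ) : ZMod (24 * n.natAbs)) →
      ¬ (p : ℤ) ∣ 6 * n ∧ Typ4 (n * p) ∧ Steps (n * p) p := by
  obtain ⟨t, hM⟩ := exists_M4 (fam n)
  have h4 := K15_mod4 n hn h2
  obtain ⟨r8, hr8, hr⟩ := K15_two n h4 (t none)
  obtain ⟨c, hc, h⟩ := exists_class_sq n hn.ne_zero (fun i => t (some i))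
    (if n % 3 = 1 then 0 else 1) r8 hr8
  refine ⟨c, hc, fun p hp hpn hpc => ?_⟩
  obtain ⟨k1, k2, k3, k4⟩ := h p hp hpn hpc
  obtain ⟨m1, m2, m3, m4⟩ := K14_common n hn hp k4
  obtain ⟨r1, r2⟩ := hr p k1
  have hT : Typ4 (n * p) :=
    ⟨m1, mul_neg_of_neg_of_pos h0 (by exact_mod_cast hp.pos), r1, K14_mod3 n p m3 k3⟩
  have hn2 : n = 2 * (n / 2) := by omega
  refine ⟨k4, hT, ?_⟩
  refine steps_four (m := n / 2 * p) (fam_odd n) hp m2 hT ?_ ?_ hM r2.symm fun i => (k2 i).symm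
  · calc n * (p : ℤ) = 2 * (n / 2) * p := by rw [← hn2]
      _ = 2 * (n / 2 * p) := by ring
  · have e : n = -2 * ∏ i, (fam n i : ℤ) := by
      conv_lhs => rw [prod_fam n hn, if_neg (by omega), if_pos h2]
      ring
    have e2 : n / 2 = -∏ i, (fam n i : ℤ) := by
      obtain ⟨P, hP⟩ : ∃ P : ℤ, P = ∏ i, (fam n i : ℤ) := ⟨_, rfl⟩
      rw [← hP] at e ⊢
      omega
    rw [e2]
    ring

/-! END K15 -/

end Pool.Agent.NCD
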