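import Pool.Agent.NCD.Defs

/-!
# The matrices and the expansion of an integer
-/

namespace Pool.Agent.NCD

open scoped BigOperators
open Pool.Agent.PT Pool.Agent.PT.SD Pool.Agent.QT

variable {ι : Type} [Fintype ι] [DecidableEq ι]

/-- `A + diag t`. -/
noncomputable def M1 (q : ι → ℕ) (t : ι → ZMod 2) : Matrix ι ι (ZMod 2) :=
  Matrix.of (Amat q) + Matrix.diagonal t

/-- `[[A + diag h, h], [hᵀ, 0]] + diag t`, `h i = lg 2 (q i)`; the index `none` belongs to `2`. -/
noncomputable def M4 (q : ι → ℕ) (t : Option ι → ZMod 2) : Matrix (Option ι) (Option ι) (ZMod 2) :=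
  (Matrix.of fun i j => match i, j with
    | none, none => 0
    | none, some j => lg 2 (q j)
    | some i, none => lg 2 (q i)
    | some i, some j => Amat q i j + if i = j then lg 2 (q i) else 0) + Matrix.diagonal t

/-- `[[A + diag h + g nᵀ, h], [(n + h)ᵀ, 0]] + diag t`, `g i = lg 3 (q i)`, `n i = lg (-1) (q i)`. -/
noncomputable def M3 (q : ι → ℕ) (t : Option ι → ZMod 2) : Matrix (Option ι) (Option ι) (ZMod 2) :=
  (Matrix.of fun i j => match i, j with
    | none, none => 0
    | none, some j => lg (-1) (q j) + lg 2 (q j)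
    | some i, none => lg 2 (q i)
    | some i, some j => Amat q i j + lg 3 (q i) * lg (-1) (q j) + if i = j then lg 2 (q i) else 0) +
    Matrix.diagonal t

/-- The matrix and its transpose are injective. -/
def Inj {κ : Type} [Fintype κ] (M : Matrix κ κ (ZMod 2)) : Prop :=
  (∀ x : κ → ZMod 2, M.mulVec x = 0 → x = 0) ∧ ∀ x : κ → ZMod 2, M.transpose.mulVec x = 0 → x = 0

/-! BEGIN K7 -/

/-- For every matrix there is a diagonal matrix such that the sum is injective: `QG.greedy` with
`R = ⊤`, `f i` the coordinate `i`, `c i x = (B x) i`, `s = univ`. The transpose is injective, too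
(`Matrix.det_transpose`, `Matrix.exists_mulVec_eq_zero_iff`). -/
theorem exists_diag {κ : Type} [Fintype κ] [DecidableEq κ] (B : Matrix κ κ (ZMod 2)) :
    ∃ t : κ → ZMod 2, Inj (B + Matrix.diagonal t) := by
  obtain ⟨t, ht⟩ := QG.greedy (Finset.univ : Finset κ) (⊤ : Submodule (ZMod 2) (κ → ZMod 2))
    (fun i => LinearMap.proj i) (fun i => (LinearMap.proj i).comp B.mulVecLin)
    (fun x _ h => funext fun i => h i (Finset.mem_univ i))
  have h1 : ∀ x : κ → ZMod 2, (B + Matrix.diagonal t).mulVec x = 0 → x = 0 := by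
    intro x hx
    refine ht x Submodule.mem_top fun i _ => ?_
    have h2 := congrFun hx i
    rw [Matrix.add_mulVec, Pi.add_apply, Matrix.mulVec_diagonal, Pi.zero_apply] at h2
    show (B.mulVec x) i = x i * t i
    have key : ∀ a b c : ZMod 2, a + b * c = 0 → a = c * b := by decide
    exact key _ _ _ h2
  refine ⟨t, h1, fun x hx => ?_⟩
  by_contra hne
  have hd : (B + Matrix.diagonal t).transpose.det = 0 :=
    Matrix.exists_mulVec_eq_zero_iff.1 ⟨x, hne, hx⟩
  rw [Matrix.det_transpose] at hd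
  obtain ⟨y, hy, hy2⟩ := Matrix.exists_mulVec_eq_zero_iff.2 hd
  exact hy (h1 y hy2)

theorem exists_M1 (q : ι → ℕ) : ∃ t, Inj (M1 q t) := by
  exact exists_diag _

theorem exists_M4 (q : ι → ℕ) : ∃ t, Inj (M4 q t) := by
  exact exists_diag _

theorem exists_M3 (q : ι → ℕ) : ∃ t, Inj (M3 q t) := by
  exact exists_diag _

/-! END K7 -/

/-! BEGIN K7b -/

private theorem K7b_tr {q : ι → ℕ} (hq : OddPrimes q) (x : ι → ZMod 2) (i j : ι) :
    Amat q j i * x j = Amat q i j * x j + lg (-1) (q i) * (x j * lg (-1) (q j)) +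
      (if j = i then lg (-1) (q i) * x i else 0) := by
  have hsq2 : ∀ t : ZMod 2, t * t = t := by decide
  by_cases hj : j = i
  · subst hj
    rw [if_pos rfl]
    linear_combination -(x j) * hsq2 (lg (-1) (q j)) - x j * two_zero (lg (-1) (q j))
  · rw [if_neg hj]
    have h6 := Pool.Agent.PT.lg_recip (q i) (q j) (hq.prime i) (hq.prime j) (hq.odd i)
      (hq.odd j) (fun h => hj (hq.inj h).symm)
    have h7 : Amat q j i = lg (q i) (q j) := by
      rw [Amat, if_neg hj]
    have h8 : Amat q i j = lg (q j) (q i) := by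
      rw [Amat, if_neg (fun h => hj h.symm)]
    rw [h7, h8]
    linear_combination x j * h6 - x j * two_zero (lg (q j) (q i))

private theorem K7b_trs {q : ι → ℕ} (hq : OddPrimes q) (x : ι → ZMod 2) (i : ι) :
    ∑ j, Amat q j i * x j = ∑ j, Amat q i j * x j +
      lg (-1) (q i) * ∑ j, x j * lg (-1) (q j) + lg (-1) (q i) * x i := by
  rw [Finset.sum_congr rfl fun j _ => K7b_tr hq x i j, Finset.sum_add_distrib,
    Finset.sum_add_distrib, ← Finset.mul_sum, Finset.sum_ite_eq' Finset.univ i,
    if_pos (Finset.mem_univ _)]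

private theorem K7b_ite (a : ι → ZMod 2) (x : ι → ZMod 2) (i : ι) :
    ∑ j, (if i = j then a i else 0) * x j = a i * x i := by
  rw [Finset.sum_eq_single i]
  · rw [if_pos rfl]
  · intro j _ hj
    rw [if_neg (fun h => hj h.symm), zero_mul]
  · intro h
    exact absurd (Finset.mem_univ _) h

private theorem K7b_ite' (a : ι → ZMod 2) (x : ι → ZMod 2) (i : ι) :
    ∑ j, (if j = i then a j else 0) * x j = a i * x i := by
  rw [Finset.sum_eq_single i]
  · rw [if_pos rfl]
  · intro j _ hj
    rw [if_neg hj, zero_mul]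
  · intro h
    exact absurd (Finset.mem_univ _) h

theorem M1_mul (q : ι → ℕ) (t x : ι → ZMod 2) (i : ι) : (M1 q t).mulVec x i =
    ∑ j, Amat q i j * x j + t i * x i := by
  rw [M1, Matrix.add_mulVec, Pi.add_apply, Matrix.mulVec_diagonal]
  rfl

/-- As `QT.Zm_transpose_mul` (reciprocity). -/
theorem M1_transpose_mul (q : ι → ℕ) (hq : OddPrimes q) (t x : ι → ZMod 2) (i : ι) :
    (M1 q t).transpose.mulVec x i = ∑ j, Amat q i j * x j +
      lg (-1) (q i) * ∑ j, x j * lg (-1) (q j) + lg (-1) (q i) * x i + t i * x i := by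
  rw [M1, Matrix.transpose_add, Matrix.diagonal_transpose, Matrix.add_mulVec, Pi.add_apply,
    Matrix.mulVec_diagonal]
  have h : (Matrix.of (Amat q)).transpose.mulVec x i = ∑ j, Amat q j i * x j := rfl
  rw [h, K7b_trs hq]

theorem M4_mul_some (q : ι → ℕ) (t x : Option ι → ZMod 2) (i : ι) : (M4 q t).mulVec x (some i) =
    ∑ j, Amat q i j * x (some j) + lg 2 (q i) * x none + lg 2 (q i) * x (some i) +
      t (some i) * x (some i) := by
  rw [M4, Matrix.add_mulVec, Pi.add_apply, Matrix.mulVec_diagonal]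
  congr 1
  refine (Fintype.sum_option _).trans ?_
  show lg 2 (q i) * x none + ∑ j, (Amat q i j + if i = j then lg 2 (q i) else 0) * x (some j) = _
  rw [Finset.sum_congr rfl fun j _ => add_mul _ _ _, Finset.sum_add_distrib,
    K7b_ite (fun i => lg 2 (q i)) (fun j => x (some j)) i]
  ring

theorem M4_mul_none (q : ι → ℕ) (t x : Option ι → ZMod 2) : (M4 q t).mulVec x none =
    ∑ j, x (some j) * lg 2 (q j) + t none * x none := by
  rw [M4, Matrix.add_mulVec, Pi.add_apply, Matrix.mulVec_diagonal]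
  congr 1
  refine (Fintype.sum_option _).trans ?_
  show 0 * x none + ∑ j, lg 2 (q j) * x (some j) = _
  rw [zero_mul, zero_add]
  exact Finset.sum_congr rfl fun j _ => mul_comm _ _

theorem M4_transpose_mul_some (q : ι → ℕ) (hq : OddPrimes q) (t x : Option ι → ZMod 2) (i : ι) :
    (M4 q t).transpose.mulVec x (some i) = ∑ j, Amat q i j * x (some j) +
      lg (-1) (q i) * ∑ j, x (some j) * lg (-1) (q j) + lg (-1) (q i) * x (some i) +
      lg 2 (q i) * x none + lg 2 (q i) * x (some i) + t (some i) * x (some i) := by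
  rw [M4, Matrix.transpose_add, Matrix.diagonal_transpose, Matrix.add_mulVec, Pi.add_apply,
    Matrix.mulVec_diagonal]
  congr 1
  refine (Fintype.sum_option _).trans ?_
  show lg 2 (q i) * x none + ∑ j, (Amat q j i + if j = i then lg 2 (q j) else 0) * x (some j) = _
  rw [Finset.sum_congr rfl fun j _ => add_mul _ _ _, Finset.sum_add_distrib,
    K7b_ite' (fun i => lg 2 (q i)) (fun j => x (some j)) i,
    K7b_trs hq (fun j => x (some j)) i]
  ring

theorem M4_transpose_mul_none (q : ι → ℕ) (t x : Option ι → ZMod 2) :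
    (M4 q t).transpose.mulVec x none = ∑ j, x (some j) * lg 2 (q j) + t none * x none := by
  rw [M4, Matrix.transpose_add, Matrix.diagonal_transpose, Matrix.add_mulVec, Pi.add_apply,
    Matrix.mulVec_diagonal]
  congr 1
  refine (Fintype.sum_option _).trans ?_
  show 0 * x none + ∑ j, lg 2 (q j) * x (some j) = _
  rw [zero_mul, zero_add]
  exact Finset.sum_congr rfl fun j _ => mul_comm _ _

/-! END K7b -/

/-! BEGIN K7c -/

private theorem K7c_ite (a : ι → ZMod 2) (x : ι → ZMod 2) (i : ι) :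
    ∑ j, (if i = j then a i else 0) * x j = a i * x i := by
  rw [Finset.sum_eq_single i]
  · rw [if_pos rfl]
  · intro j _ hj
    rw [if_neg (fun h => hj h.symm), zero_mul]
  · intro h
    exact absurd (Finset.mem_univ _) h

private theorem K7c_tr {q : ι → ℕ} (hq : OddPrimes q) (x : ι → ZMod 2) (i j : ι) :
    Amat q j i * x j = Amat q i j * x j + lg (-1) (q i) * (x j * lg (-1) (q j)) +
      (if i = j then lg (-1) (q i) else 0) * x j := by
  have hsq2 : ∀ t : ZMod 2, t * t = t := by decide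
  by_cases hj : i = j
  · subst hj
    rw [if_pos rfl]
    linear_combination -(x i) * hsq2 (lg (-1) (q i)) - x i * two_zero (lg (-1) (q i))
  · rw [if_neg hj]
    have h6 := Pool.Agent.PT.lg_recip (q i) (q j) (hq.prime i) (hq.prime j) (hq.odd i)
      (hq.odd j) (fun h => hj (hq.inj h))
    have h7 : Amat q j i = lg (q i) (q j) := by
      rw [Amat, if_neg (fun h => hj h.symm)]
    have h8 : Amat q i j = lg (q j) (q i) := by
      rw [Amat, if_neg hj]
    rw [h7, h8]
    linear_combination x j * h6 - x j * two_zero (lg (q j) (q i))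

theorem M3_mul_some (q : ι → ℕ) (t x : Option ι → ZMod 2) (i : ι) : (M3 q t).mulVec x (some i) =
    ∑ j, Amat q i j * x (some j) + lg 3 (q i) * ∑ j, x (some j) * lg (-1) (q j) +
      lg 2 (q i) * x none + lg 2 (q i) * x (some i) + t (some i) * x (some i) := by
  rw [M3, Matrix.add_mulVec, Pi.add_apply, Matrix.mulVec_diagonal]
  congr 1
  refine (Fintype.sum_option _).trans ?_
  show lg 2 (q i) * x none + ∑ j, (Amat q i j + lg 3 (q i) * lg (-1) (q j) +
    if i = j then lg 2 (q i) else 0) * x (some j) = _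
  have h : ∀ j, (Amat q i j + lg 3 (q i) * lg (-1) (q j) +
      if i = j then lg 2 (q i) else 0) * x (some j) = Amat q i j * x (some j) +
      lg 3 (q i) * (x (some j) * lg (-1) (q j)) +
      (if i = j then lg 2 (q i) else 0) * x (some j) := by
    intro j
    ring
  rw [Finset.sum_congr rfl fun j _ => h j, Finset.sum_add_distrib, Finset.sum_add_distrib,
    ← Finset.mul_sum, K7c_ite (fun i => lg 2 (q i)) (fun j => x (some j)) i]
  ring

theorem M3_mul_none (q : ι → ℕ) (t x : Option ι → ZMod 2) : (M3 q t).mulVec x none =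
    ∑ j, x (some j) * (lg (-1) (q j) + lg 2 (q j)) + t none * x none := by
  rw [M3, Matrix.add_mulVec, Pi.add_apply, Matrix.mulVec_diagonal]
  congr 1
  refine (Fintype.sum_option _).trans ?_
  show 0 * x none + ∑ j, (lg (-1) (q j) + lg 2 (q j)) * x (some j) = _
  rw [zero_mul, zero_add]
  exact Finset.sum_congr rfl fun j _ => mul_comm _ _

theorem M3_transpose_mul_some (q : ι → ℕ) (hq : OddPrimes q) (t x : Option ι → ZMod 2) (i : ι) :
    (M3 q t).transpose.mulVec x (some i) = ∑ j, Amat q i j * x (some j) +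
      lg (-1) (q i) * ∑ j, x (some j) * (lg 3 (q j) + lg (-1) (q j)) +
      lg (-1) (q i) * x (some i) + (lg (-1) (q i) + lg 2 (q i)) * x none +
      lg 2 (q i) * x (some i) + t (some i) * x (some i) := by
  rw [M3, Matrix.transpose_add, Matrix.diagonal_transpose, Matrix.add_mulVec, Pi.add_apply,
    Matrix.mulVec_diagonal]
  congr 1
  refine (Fintype.sum_option _).trans ?_
  show (lg (-1) (q i) + lg 2 (q i)) * x none + ∑ j, (Amat q j i + lg 3 (q j) * lg (-1) (q i) +
    if j = i then lg 2 (q j) else 0) * x (some j) = _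
  have h : ∀ j, (Amat q j i + lg 3 (q j) * lg (-1) (q i) +
      if j = i then lg 2 (q j) else 0) * x (some j) = Amat q i j * x (some j) +
      lg (-1) (q i) * (x (some j) * (lg 3 (q j) + lg (-1) (q j))) +
      (if i = j then lg (-1) (q i) else 0) * x (some j) +
      (if i = j then lg 2 (q i) else 0) * x (some j) := by
    intro j
    have e : (if j = i then lg 2 (q j) else 0) = (if i = j then lg 2 (q i) else 0) := by
      by_cases hij : i = j
      · subst hij
        rfl
      · rw [if_neg hij, if_neg (fun h => hij h.symm)]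
    rw [e]
    linear_combination K7c_tr hq (fun j => x (some j)) i j
  rw [Finset.sum_congr rfl fun j _ => h j, Finset.sum_add_distrib, Finset.sum_add_distrib,
    Finset.sum_add_distrib, ← Finset.mul_sum,
    K7c_ite (fun i => lg 2 (q i)) (fun j => x (some j)) i,
    K7c_ite (fun i => lg (-1) (q i)) (fun j => x (some j)) i]
  ring

theorem M3_transpose_mul_none (q : ι → ℕ) (t x : Option ι → ZMod 2) :
    (M3 q t).transpose.mulVec x none = ∑ j, x (some j) * lg 2 (q j) + t none * x none := by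
  rw [M3, Matrix.transpose_add, Matrix.diagonal_transpose, Matrix.add_mulVec, Pi.add_apply,
    Matrix.mulVec_diagonal]
  congr 1
  refine (Fintype.sum_option _).trans ?_
  show 0 * x none + ∑ j, lg 2 (q j) * x (some j) = _
  rw [zero_mul, zero_add]
  exact Finset.sum_congr rfl fun j _ => mul_comm _ _

/-! END K7c -/

/-! BEGIN K8 -/

/-- `QT.expand` in terms of `Amat` (`hom_DD`, `cl_q_q`); `e` is the sign bit. -/
theorem expand_one {q : ι → ℕ} (hq : OddPrimes q) {u : ℤ} (hu : u ≠ 0)
    (hp : ∀ p : ℕ, p.Prime → p ≠ 2 → (∀ i, p ≠ q i) → vv p u = 0) :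
    ∃ e : ZMod 2, (0 < u → e = 0) ∧ (e = 0 → 0 < u) ∧
      (∀ i, cl (q i) u + (∑ l ∈ Finset.univ.erase i, lg (q l) (q i)) * vv (q i) u =
        e * lg (-1) (q i) + vv 2 u * lg 2 (q i) + ∑ j, Amat q i j * vv (q j) u) ∧
      l4 u = e + ∑ j, vv (q j) u * lg (-1) (q j) ∧
      l8 u = ∑ j, vv (q j) u * lg 2 (q j) := by
  obtain ⟨e, u', hu', huu, -, h1, h2, h3⟩ := expand hq hu hp
  refine ⟨e, fun h0 => ?_, fun h0 => ?_, fun i => ?_, h2, h3⟩
  · rcases huu with ⟨-, h⟩ | ⟨h, -⟩
    · exact h
    · exfalso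
      linarith
  · rcases huu with ⟨h, -⟩ | ⟨-, h⟩
    · rw [h]
      exact hu'
    · rw [h0] at h
      exact absurd h (by decide)
  · have : Fact (q i).Prime := ⟨hq.prime i⟩
    rw [Amat_sum hq (fun i => vv (q i) u) i, h1 i, lg_rest hq i]
    ring

/-- The family with `3` added. -/
def fam3 (q : ι → ℕ) : Option ι → ℕ
  | none => 3
  | some i => q i

theorem fam3_odd {q : ι → ℕ} (hq : OddPrimes q) (h3 : ∀ i, q i ≠ 3) : OddPrimes (fam3 q) := by
  refine ⟨?_, ?_, ?_⟩
  · rintro (_ | i)
    · exact Nat.prime_three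
    · exact hq.prime i
  · rintro (_ | i)
    · show (3 : ℕ) ≠ 2
      norm_num
    · exact hq.odd i
  · rintro (_ | i) (_ | j) h
    · rfl
    · exact absurd h.symm (h3 j)
    · exact absurd h (h3 i)
    · exact congrArg some (hq.inj h)

private theorem K8_m3 : lg (-1) 3 = 1 := by
  have : Fact (Nat.Prime 3) := ⟨Nat.prime_three⟩
  rw [← l4_prime 3 (by norm_num), l4_of_odd (by norm_num), if_neg (by norm_num)]

private theorem K8_23 : lg 2 3 = 1 := by
  rw [lg_two 3 Nat.prime_three (by norm_num), if_neg (by norm_num)]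

private theorem K8_er_some (f : Option ι → ZMod 2) (i : ι) :
    ∑ l ∈ Finset.univ.erase (some i), f l = f none + ∑ l ∈ Finset.univ.erase i, f (some l) := by
  have key : ∀ a b c : ZMod 2, a = b + c → b = a - c := by
    intro a b c h
    rw [h]
    ring
  have h1 := Finset.sum_erase_add (Finset.univ : Finset (Option ι)) f (Finset.mem_univ (some i))
  have h2 := Finset.sum_erase_add (Finset.univ : Finset ι) (fun l => f (some l))
    (Finset.mem_univ i)
  rw [Fintype.sum_option] at h1
  linear_combination h1 - h2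

/-- `expand_one` for the family `fam3 q` (`Fintype.sum_option`, `lg (-1) 3 = lg 2 3 = 1`,
`lg (q j) 3 = lg 3 (q j) + lg (-1) (q j)` by `lg_recip`), for an integer `u` with even valuations
outside `2, 3` and the `q i`. -/
theorem expand3 {q : ι → ℕ} (hq : OddPrimes q) (h3 : ∀ i, q i ≠ 3) {u : ℤ} (hu : u ≠ 0)
    (hp : ∀ p : ℕ, p.Prime → p ≠ 2 → p ≠ 3 → (∀ i, p ≠ q i) → vv p u = 0) :
    ∃ e : ZMod 2, (0 < u → e = 0) ∧ (e = 0 → 0 < u) ∧
      (∀ i, cl (q i) u + (∑ l ∈ Finset.univ.erase i, lg (q l) (q i)) * vv (q i) u =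
        e * lg (-1) (q i) + vv 2 u * lg 2 (q i) + vv 3 u * lg 3 (q i) +
          ∑ j, Amat q i j * vv (q j) u) ∧
      l4 u = e + vv 3 u + ∑ j, vv (q j) u * lg (-1) (q j) ∧
      l8 u = vv 3 u + ∑ j, vv (q j) u * lg 2 (q j) ∧
      (vv 3 u = 0 → cl 3 u = e + vv 2 u + ∑ j, vv (q j) u * (lg 3 (q j) + lg (-1) (q j))) := by
  obtain ⟨e, h0, h0', h1, h2, h3'⟩ := expand_one (fam3_odd hq h3) hu (u := u) (by
    intro p hp1 hp2 hp3
    exact hp p hp1 hp2 (hp3 none) fun i => hp3 (some i))
  have e1 : lg (-1) 3 = 1 := K8_m3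
  have e2 : lg 2 3 = 1 := K8_23
  refine ⟨e, h0, h0', fun i => ?_, ?_, ?_, fun hv => ?_⟩
  · have h4 := h1 (some i)
    rw [Fintype.sum_option, K8_er_some (fun l => lg (fam3 q l) (fam3 q (some i))) i] at h4
    have h5 : ∀ j, Amat (fam3 q) (some i) (some j) * vv (fam3 q (some j)) u =
        Amat q i j * vv (q j) u + (if i = j then lg 3 (q i) * vv (q i) u else 0) := by
      intro j
      by_cases hij : i = j
      · subst hij
        rw [Amat, if_pos rfl, K8_er_some (fun l => lg (fam3 q l) (fam3 q (some i))) i, Amat,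
          if_pos rfl, if_pos rfl]
        simp only [fam3]
        push_cast
        ring
      · have hij' : ¬ (some i = some j) := fun h => hij (Option.some.inj h)
        rw [Amat, if_neg hij', Amat, if_neg hij, if_neg hij, add_zero]
        rfl
    rw [Finset.sum_congr rfl fun j _ => h5 j, Finset.sum_add_distrib, Finset.sum_ite_eq,
      if_pos (Finset.mem_univ i)] at h4
    have h6 : Amat (fam3 q) (some i) none = lg 3 (q i) := by
      rw [Amat, if_neg (by simp)]
      rfl
    rw [h6] at h4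
    simp only [fam3] at h4
    push_cast at h4
    linear_combination h4
  · rw [h2, Fintype.sum_option]
    simp only [fam3]
    rw [e1]
    ring
  · rw [h3', Fintype.sum_option]
    simp only [fam3]
    rw [e2]
    ring
  · have h4 := h1 none
    rw [Fintype.sum_option] at h4
    have h5 : ∀ j, Amat (fam3 q) none (some j) * vv (fam3 q (some j)) u =
        vv (q j) u * (lg 3 (q j) + lg (-1) (q j)) := by
      intro j
      rw [Amat, if_neg (by simp)]
      show lg (q j) 3 * vv (q j) u = _
      have h6 := Pool.Agent.PT.lg_recip (q j) 3 (hq.prime j) Nat.prime_three (hq.odd j)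
        (by norm_num) (h3 j)
      rw [e1] at h6
      push_cast at h6
      linear_combination (vv (q j) u) * h6 - vv (q j) u * two_zero (lg 3 (q j))
    rw [Finset.sum_congr rfl fun j _ => h5 j] at h4
    simp only [fam3] at h4
    rw [hv, e1, e2] at h4
    linear_combination h4

/-- Even valuations everywhere and positive: a square (`isSquare_of_vv`). -/
theorem square_of {q : ι → ℕ} {u : ℤ} (hu : 0 < u)
    (hp : ∀ p : ℕ, p.Prime → p ≠ 2 → (∀ i, p ≠ q i) → vv p u = 0) (h2 : vv 2 u = 0)
    (hq : ∀ i, vv (q i) u = 0) : IsSquare u := by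
  refine isSquare_of_vv hu fun p hp1 => ?_
  by_cases h : p = 2
  · rw [h, h2]
  · by_cases h3 : ∃ i, p = q i
    · obtain ⟨i, rfl⟩ := h3
      exact hq i
    · exact hp p hp1 h fun i h4 => h3 ⟨i, h4⟩

/-- The invariants of a square. -/
theorem inv_square {u : ℤ} (hu : u ≠ 0) (h : IsSquare u) :
    (∀ p : ℕ, p.Prime → vv p u = 0 ∧ cl p u = 0) ∧ l4 u = 0 ∧ l8 u = 0 := by
  obtain ⟨r, rfl⟩ := h
  have hr : r ≠ 0 := left_ne_zero_of_mul hu
  rw [← sq]
  refine ⟨fun p hp => ?_, l4_sq hr, l8_sq hr⟩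
  have : Fact p.Prime := ⟨hp⟩
  exact ⟨vv_sq hr, cl_sq hr⟩

/-- The symbol of `m = s p ∏_{l ≠ i} q l`, `s ∈ {1, -1, 2, -2}` (`lg_rest`, `lg_mul`). -/
theorem lg_cof {q : ι → ℕ} (hq : OddPrimes q) {p : ℕ} (hp : p.Prime) (hpq : ∀ i, p ≠ q i) (i : ι)
    (s : ℤ) (hs : ¬ (q i : ℤ) ∣ s) :
    lg (s * p * ∏ l ∈ Finset.univ.erase i, (q l : ℤ)) (q i) =
      lg s (q i) + lg p (q i) + ∑ l ∈ Finset.univ.erase i, lg (q l) (q i) := by
  have : Fact (q i).Prime := ⟨hq.prime i⟩
  have hp' : ¬ (q i : ℤ) ∣ (p : ℤ) := by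
    intro h
    have h1 : q i ∣ p := by exact_mod_cast h
    exact hpq i ((Nat.prime_dvd_prime_iff_eq (hq.prime i) hp).1 h1).symm
  have hsp : ¬ (q i : ℤ) ∣ s * p := by
    intro h
    rcases (Nat.prime_iff_prime_int.1 (hq.prime i)).dvd_or_dvd h with h | h
    · exact hs h
    · exact hp' h
  rw [lg_mul hsp (rest_ndvd hq i), lg_mul hs hp', lg_rest hq i]

/-! END K8 -/

end Pool.Agent.NCD
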