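import Pool.Agent.NCD.Loc
import Pool.Agent.NCD.Mat

/-!
# Both Selmer groups are trivial
-/

namespace Pool.Agent.NCD

open scoped BigOperators
open Pool.Agent.PT Pool.Agent.PT.SD Pool.Agent.QT

variable {ι : Type} [Fintype ι] [DecidableEq ι]

/-- The conclusion of the two steps for `d` and a prime `p ∣ d`. -/
def Steps (d : ℤ) (p : ℕ) : Prop :=
  (∀ c w v : ℤ, KPt d c w v → vv p c = 0 → IsSquare c) ∧
  (∀ c w v : ℤ, KPt d c w v → IsSquare c → vv p (c - 9 * d * w ^ 2) = 0 →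
    IsSquare (c - 9 * d * w ^ 2))

/-! BEGIN K9 -/

/-- The conditions at an odd prime `q ∣ d`, also for `q = 3` (`KPt.loc`, `KPt.three_zero`). -/
theorem loc_all {d c w v : ℤ} (h : KPt d c w v) {q : ℕ} [hq : Fact q.Prime] {m : ℤ} (h2 : q ≠ 2)
    (hd : d = q * m) (hm : ¬ (q : ℤ) ∣ m) :
    cl q c = vv q c * lg m q ∧ (vv q c = 0 →
      cl q (c - 9 * d * w ^ 2) = vv q (c - 9 * d * w ^ 2) * (lg (-1) q + lg m q)) := by
  by_cases h3 : q = 3
  · subst h3
    exact h.three_zero (by rw [hd]; push_cast; ring) (by exact_mod_cast hm)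
  · obtain ⟨e1, e2⟩ := h.loc h2 h3 hd hm
    refine ⟨e1, fun h0 => ?_⟩
    rw [e2, h0, zero_mul, add_zero]

/-- Primes not dividing `2 d`, also `3` if `d = 1 mod 3` (`KPt.good`, `KPt.three_one`). -/
theorem good_all {d c w v : ℤ} (h : KPt d c w v) (h3 : d % 3 ≠ 2) {r : ℕ} (hr : r.Prime)
    (h2 : r ≠ 2) (hd : ¬ (r : ℤ) ∣ d) : vv r c = 0 ∧ vv r (c - 9 * d * w ^ 2) = 0 := by
  have : Fact r.Prime := ⟨hr⟩
  by_cases hr3 : r = 3
  · subst hr3
    refine h.three_one ?_
    have h1 : ¬ (3 : ℤ) ∣ d := by exact_mod_cast hd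
    omega
  · exact h.good r h2 hr3 hd

private theorem K9_alg {b c z R s S : ZMod 2} (h1 : c + R * z = b + S) (h2 : c = z * (s + R)) :
    S + b + z * s = 0 := by
  have h20 : (2 : ZMod 2) = 0 := by decide
  linear_combination h2 - h1 + (z * s + R * z) * h20

private theorem K9_eq {a b : ZMod 2} (h : 0 = a + b) : a = b := by
  revert h
  revert a b
  decide

omit [DecidableEq ι] in
private theorem K9_supp {q : ι → ℕ} (hq : OddPrimes q) {p : ℕ} (hp : p.Prime) {d s : ℤ}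
    (hs : s = 1 ∨ s = -1 ∨ s = 2 ∨ s = -2) (hd : d = s * (p * ∏ i, (q i : ℤ))) {r : ℕ} (hr : r.Prime)
    (h2 : r ≠ 2) (hrp : r ≠ p) (hrq : ∀ i, r ≠ q i) : ¬ (r : ℤ) ∣ d := by
  have hr' := Nat.prime_iff_prime_int.1 hr
  have h1 : ¬ (r : ℤ) ∣ 1 := hr'.not_dvd_one
  have h3 : ¬ (r : ℤ) ∣ 2 := by
    intro h
    have h4 : r ∣ 2 := by exact_mod_cast h
    exact h2 ((Nat.prime_dvd_prime_iff_eq hr Nat.prime_two).1 h4)
  rw [hd]
  intro h
  rcases hr'.dvd_or_dvd h with h | h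
  · rcases hs with rfl | rfl | rfl | rfl
    · exact h1 h
    · exact h1 (by simpa using h)
    · exact h3 h
    · exact h3 (by simpa using h)
  · rcases hr'.dvd_or_dvd h with h | h
    · have h4 : r ∣ p := by exact_mod_cast h
      exact hrp ((Nat.prime_dvd_prime_iff_eq hr hp).1 h4)
    · rw [Prime.dvd_finsetProd_iff hr'] at h
      obtain ⟨l, _, h⟩ := h
      have h4 : r ∣ q l := by exact_mod_cast h
      exact hrq l ((Nat.prime_dvd_prime_iff_eq hr (hq.prime l)).1 h4)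

omit [DecidableEq ι] [Fintype ι] in
private theorem K9_nd {q : ι → ℕ} (hq : OddPrimes q) {s : ℤ} (hs : s = 1 ∨ s = -1 ∨ s = 2 ∨ s = -2)
    (i : ι) : ¬ (q i : ℤ) ∣ s := by
  have hr' := Nat.prime_iff_prime_int.1 (hq.prime i)
  have h3 : ¬ (q i : ℤ) ∣ 2 := by
    intro h
    have h4 : q i ∣ 2 := by exact_mod_cast h
    exact hq.odd i ((Nat.prime_dvd_prime_iff_eq (hq.prime i) Nat.prime_two).1 h4)
  rcases hs with rfl | rfl | rfl | rfl
  · exact hr'.not_dvd_one
  · exact fun h => hr'.not_dvd_one (by simpa using h)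
  · exact h3
  · exact fun h => h3 (by simpa using h)

private theorem K9_cof {q : ι → ℕ} (hq : OddPrimes q) {p : ℕ} (hp : p.Prime) (hpq : ∀ i, p ≠ q i)
    {d s : ℤ} (hs : s = 1 ∨ s = -1 ∨ s = 2 ∨ s = -2) (hd : d = s * (p * ∏ i, (q i : ℤ))) (i : ι) :
    ∃ m : ℤ, d = q i * m ∧ ¬ (q i : ℤ) ∣ m ∧
      lg m (q i) = lg s (q i) + lg p (q i) + ∑ l ∈ Finset.univ.erase i, lg (q l) (q i) := by
  have : Fact (q i).Prime := ⟨hq.prime i⟩
  have hsi := K9_nd hq hs i
  have hpi : ¬ (q i : ℤ) ∣ (p : ℤ) := by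
    intro h
    have h4 : q i ∣ p := by exact_mod_cast h
    exact hpq i ((Nat.prime_dvd_prime_iff_eq (hq.prime i) hp).1 h4).symm
  refine ⟨s * p * ∏ l ∈ Finset.univ.erase i, (q l : ℤ), ?_, ?_, lg_cof hq hp hpq i s hsi⟩
  · rw [hd, ← Finset.mul_prod_erase Finset.univ (fun l => (q l : ℤ)) (Finset.mem_univ i)]
    ring
  · exact not_dvd_mul (not_dvd_mul hsi hpi) (rest_ndvd hq i)

/-- Type 1: `t i = lg p (q i)`. Step 1 for `c`: `expand_one` (support: `good_all` and `vv p c = 0`),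
`e = 0` (`sign_pos`), `vv 2 c = 0` (`two_three`), `loc_all` with `m = p ∏_{l ≠ i} q l` (`lg_cof`,
`s = 1`): `(M1 q t) z = 0` for `z i = vv (q i) c`, so `z = 0` and `c` is a square. Step 2 for
`a = c - 9 d w²`: `vv 2 a = 0`, `l4 a = 0` (`two_three`, `inv_square`), so `e = ∑ x n`;
`loc_all`: `(M1 q t)ᵀ x = 0`, so `x = 0`, `e = 0`, `a` is a square. -/
theorem steps_one {q : ι → ℕ} (hq : OddPrimes q) {p : ℕ} (hp : p.Prime) (hpq : ∀ i, p ≠ q i)
    {d : ℤ} (hd : Typ1 d) (hdp : d = p * ∏ i, (q i : ℤ))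
    (hM : Inj (M1 q fun i => lg p (q i))) : Steps d p := by
  have hp' : Fact p.Prime := ⟨hp⟩
  have hd1 : d = 1 * (p * ∏ i, (q i : ℤ)) := by
    rw [one_mul]
    exact hdp
  have hs : (1 : ℤ) = 1 ∨ (1 : ℤ) = -1 ∨ (1 : ℤ) = 2 ∨ (1 : ℤ) = -2 := Or.inl rfl
  refine ⟨fun c w v h h0 => ?_, fun c w v h hsq h0 => ?_⟩
  · have hsup : ∀ r : ℕ, r.Prime → r ≠ 2 → (∀ i, r ≠ q i) → vv r c = 0 := by
      intro r hr hr2 hrq
      by_cases hrp : r = p
      · rw [hrp]
        exact h0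
      · exact (good_all h hd.three hr hr2 (K9_supp hq hp hs hd1 hr hr2 hrp hrq)).1
    obtain ⟨e, he, _, hcl, _, _⟩ := expand_one hq h.ne1 hsup
    have hc := h.sign_pos hd.pos
    have e0 := he hc
    have hv2 := (h.two_three hd.four).1
    have hz : (M1 q fun i => lg p (q i)).mulVec (fun i => vv (q i) c) = 0 := by
      funext i
      have : Fact (q i).Prime := ⟨hq.prime i⟩
      obtain ⟨m, hm, hm', hlm⟩ := K9_cof hq hp hpq hs hd1 i
      have hL := (loc_all h (hq.odd i) hm hm').1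
      rw [hlm] at hL
      have h1 := K9_alg (hcl i) hL
      rw [M1_mul, Pi.zero_apply]
      linear_combination h1 - lg (-1) (q i) * e0 - lg 2 (q i) * hv2 - vv (q i) c * lg_one (q i)
    have hz0 := hM.1 _ hz
    exact square_of hc hsup hv2 fun i => congrFun hz0 i
  · obtain ⟨i1, i2, i3⟩ := inv_square h.ne1 hsq
    obtain ⟨hv2, l4a⟩ := (h.two_three hd.four).2 i2 i3
    have hsup : ∀ r : ℕ, r.Prime → r ≠ 2 → (∀ i, r ≠ q i) → vv r (c - 9 * d * w ^ 2) = 0 := by
      intro r hr hr2 hrq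
      by_cases hrp : r = p
      · rw [hrp]
        exact h0
      · exact (good_all h hd.three hr hr2 (K9_supp hq hp hs hd1 hr hr2 hrp hrq)).2
    obtain ⟨e, _, he', hcl, h4, _⟩ := expand_one hq h.ne3 hsup
    rw [l4a] at h4
    have he4 := K9_eq h4
    have hz : (M1 q fun i => lg p (q i)).transpose.mulVec
        (fun i => vv (q i) (c - 9 * d * w ^ 2)) = 0 := by
      funext i
      have : Fact (q i).Prime := ⟨hq.prime i⟩
      obtain ⟨m, hm, hm', hlm⟩ := K9_cof hq hp hpq hs hd1 i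
      have hL := (loc_all h (hq.odd i) hm hm').2 (i1 _ (hq.prime i)).1
      rw [hlm, ← add_assoc] at hL
      have h1 := K9_alg (hcl i) hL
      rw [M1_transpose_mul q hq, Pi.zero_apply]
      linear_combination h1 - lg (-1) (q i) * he4 - lg 2 (q i) * hv2 -
        vv (q i) (c - 9 * d * w ^ 2) * lg_one (q i)
    have hz0 := hM.2 _ hz
    have hzi : ∀ i, vv (q i) (c - 9 * d * w ^ 2) = 0 := fun i => congrFun hz0 i
    have e0 : e = 0 := by
      rw [he4]
      exact Finset.sum_eq_zero fun j _ => by rw [hzi j, zero_mul]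
    exact square_of (he' e0) hsup hv2 hzi

/-! END K9 -/

/-! BEGIN K9b -/

/-- Type 2: `m = - p ∏_{l ≠ i} q l` (`lg_cof`, `s = -1`). Step 1: `vv 2 c = 0`, `l4 c = 0` (`two_one`),
`e = ∑ z n`, `(M1 q t)ᵀ z = 0`. Step 2: `a > 0` (`sign_neg`), `vv 2 a = 0` (`two_one`: the second
alternative has `l8 c = l8 d = 1`, but `l8 c = 0`), `(M1 q t) x = 0`. -/
theorem steps_two {q : ι → ℕ} (hq : OddPrimes q) {p : ℕ} (hp : p.Prime) (hpq : ∀ i, p ≠ q i)
    {d : ℤ} (hd : Typ2 d) (hdp : d = -(p * ∏ i, (q i : ℤ)))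
    (hM : Inj (M1 q fun i => lg p (q i))) : Steps d p := by
  have hp' : Fact p.Prime := ⟨hp⟩
  have hd1 : d = -1 * (p * ∏ i, (q i : ℤ)) := by
    rw [hdp]
    ring
  have hs : (-1 : ℤ) = 1 ∨ (-1 : ℤ) = -1 ∨ (-1 : ℤ) = 2 ∨ (-1 : ℤ) = -2 := Or.inr (Or.inl rfl)
  have h41 : d % 4 = 1 := by
    have := hd.eight
    omega
  refine ⟨fun c w v h h0 => ?_, fun c w v h hsq h0 => ?_⟩
  · have hsup : ∀ r : ℕ, r.Prime → r ≠ 2 → (∀ i, r ≠ q i) → vv r c = 0 := by
      intro r hr hr2 hrq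
      by_cases hrp : r = p
      · rw [hrp]
        exact h0
      · exact (good_all h hd.three hr hr2 (K9_supp hq hp hs hd1 hr hr2 hrp hrq)).1
    obtain ⟨e, _, he', hcl, h4, _⟩ := expand_one hq h.ne1 hsup
    obtain ⟨hv2, l4c, _⟩ := h.two_one h41
    rw [l4c] at h4
    have he4 := K9_eq h4
    have hz : (M1 q fun i => lg p (q i)).transpose.mulVec (fun i => vv (q i) c) = 0 := by
      funext i
      have : Fact (q i).Prime := ⟨hq.prime i⟩
      obtain ⟨m, hm, hm', hlm⟩ := K9_cof hq hp hpq hs hd1 i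
      have hL := (loc_all h (hq.odd i) hm hm').1
      rw [hlm] at hL
      have h1 := K9_alg (hcl i) hL
      rw [M1_transpose_mul q hq, Pi.zero_apply]
      linear_combination h1 - lg (-1) (q i) * he4 - lg 2 (q i) * hv2
    have hz0 := hM.2 _ hz
    have hzi : ∀ i, vv (q i) c = 0 := fun i => congrFun hz0 i
    have e0 : e = 0 := by
      rw [he4]
      exact Finset.sum_eq_zero fun j _ => by rw [hzi j, zero_mul]
    exact square_of (he' e0) hsup hv2 hzi
  · obtain ⟨i1, i2, i3⟩ := inv_square h.ne1 hsq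
    have ha := h.sign_neg hd.neg
    have l8d : l8 d = 1 := by
      have h8 := hd.eight
      rw [l8_of_odd (by omega), if_neg (by omega)]
    have hv2 : vv 2 (c - 9 * d * w ^ 2) = 0 := by
      rcases (h.two_one h41).2.2 with h5 | h5
      · exact h5.1
      · have h6 := h5.2
        rw [i3, l8d] at h6
        exact absurd h6 (by decide)
    have hsup : ∀ r : ℕ, r.Prime → r ≠ 2 → (∀ i, r ≠ q i) → vv r (c - 9 * d * w ^ 2) = 0 := by
      intro r hr hr2 hrq
      by_cases hrp : r = p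
      · rw [hrp]
        exact h0
      · exact (good_all h hd.three hr hr2 (K9_supp hq hp hs hd1 hr hr2 hrp hrq)).2
    obtain ⟨e, he, _, hcl, _, _⟩ := expand_one hq h.ne3 hsup
    have e0 := he ha
    have hz : (M1 q fun i => lg p (q i)).mulVec (fun i => vv (q i) (c - 9 * d * w ^ 2)) = 0 := by
      funext i
      have : Fact (q i).Prime := ⟨hq.prime i⟩
      obtain ⟨m, hm, hm', hlm⟩ := K9_cof hq hp hpq hs hd1 i
      have hL := (loc_all h (hq.odd i) hm hm').2 (i1 _ (hq.prime i)).1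
      rw [hlm, ← add_assoc] at hL
      have h1 := K9_alg (hcl i) hL
      rw [M1_mul, Pi.zero_apply]
      linear_combination h1 - lg (-1) (q i) * e0 - lg 2 (q i) * hv2 -
        vv (q i) (c - 9 * d * w ^ 2) * two_zero (lg (-1) (q i))
    have hz0 := hM.1 _ hz
    exact square_of ha hsup hv2 fun i => congrFun hz0 i

/-! END K9b -/

/-! BEGIN K10 -/

/-- Type 3: `d = 2 m`, `m = p ∏ q i = 1 mod 4`, `h3 : q i ≠ 3` (as `d = 2 mod 3`), `t none = l8 m`,
`t (some i) = lg p (q i)`; cofactors with `s = 2`. Step 1 for `c > 0`: `expand3`; `two_even`: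
`l4 c = 0`: `vv 3 c = ∑ z n`; `l8 c = vv 2 c * l8 m`: `∑ z (n + h) + t none * vv 2 c = 0`; with
`loc`: `(M3 q t) Z = 0` for `Z none = vv 2 c`, `Z (some i) = vv (q i) c`; so `Z = 0`, `vv 3 c = 0`, `c` is a
square. Step 2: `vv 3 a = 0`, `cl 3 a = 0` (`three_two` and the sums), so
`e + vv 2 a + ∑ x (g + n) = 0`; `l8 a = vv 2 a * l8 m` and `loc` give `(M3 q t)ᵀ X = 0`; so `X = 0`,
`e = 0`. -/
theorem steps_three {q : ι → ℕ} (hq : OddPrimes q) {p : ℕ} (hp : p.Prime) (hpq : ∀ i, p ≠ q i)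
    {d m : ℤ} (hd : Typ3 d) (hdm : d = 2 * m) (hdp : m = p * ∏ i, (q i : ℤ))
    {t : Option ι → ZMod 2} (hM : Inj (M3 q t)) (h0 : t none = l8 m)
    (h1 : ∀ i, t (some i) = lg p (q i)) : Steps d p := by
  have hp' : Fact p.Prime := ⟨hp⟩
  have h0' := h0
  have h1' := h1
  have h20 : (2 : ZMod 2) = 0 := by decide
  have hd1 : d = 2 * (p * ∏ i, (q i : ℤ)) := by
    rw [hdm, hdp]
  have hs : (2 : ℤ) = 1 ∨ (2 : ℤ) = -1 ∨ (2 : ℤ) = 2 ∨ (2 : ℤ) = -2 := Or.inr (Or.inr (Or.inl rfl))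
  have hd3 : ¬ (3 : ℤ) ∣ d := by
    have := hd.three
    omega
  have hq3 : ∀ i, q i ≠ 3 := by
    intro i hi
    apply hd3
    rw [hd1, ← Finset.mul_prod_erase Finset.univ (fun l => (q l : ℤ)) (Finset.mem_univ i), hi]
    exact ⟨2 * p * ∏ l ∈ Finset.univ.erase i, (q l : ℤ), by push_cast; ring⟩
  have hm4 : m % 4 = 1 := by
    have := hd.eight
    omega
  refine ⟨fun c w v h h0 => ?_, fun c w v h hsq h0 => ?_⟩
  · have hsup : ∀ r : ℕ, r.Prime → r ≠ 2 → r ≠ 3 → (∀ i, r ≠ q i) → vv r c = 0 := by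
      intro r hr hr2 hr3 hrq
      by_cases hrp : r = p
      · rw [hrp]
        exact h0
      · have : Fact r.Prime := ⟨hr⟩
        exact (h.good r hr2 hr3 (K9_supp hq hp hs hd1 hr hr2 hrp hrq)).1
    obtain ⟨e, he, _, hcl, h4, h8, _⟩ := expand3 hq hq3 h.ne1 hsup
    have hc := h.sign_pos hd.pos
    have e0 := he hc
    obtain ⟨l4c, l8c, _⟩ := h.two_even hdm hm4
    rw [l4c, e0, zero_add] at h4
    have hv3 := K9_eq h4
    rw [l8c] at h8
    have hz : (M3 q t).mulVec (fun o => o.elim (vv 2 c) fun i => vv (q i) c) = 0 := by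
      funext o
      rcases o with _ | i
      · rw [M3_mul_none, Pi.zero_apply, h0']
        show ∑ j, vv (q j) c * (lg (-1) (q j) + lg 2 (q j)) + l8 m * vv 2 c = 0
        simp only [mul_add, Finset.sum_add_distrib]
        linear_combination h8 + hv3 + (∑ j, vv (q j) c * lg (-1) (q j) +
          ∑ j, vv (q j) c * lg 2 (q j)) * h20
      · have : Fact (q i).Prime := ⟨hq.prime i⟩
        obtain ⟨m', hm, hm', hlm⟩ := K9_cof hq hp hpq hs hd1 i
        have hL := (h.loc (hq.odd i) (hq3 i) hm hm').1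
        rw [hlm] at hL
        have h1 := K9_alg (hcl i) hL
        rw [M3_mul_some, Pi.zero_apply, h1']
        show ∑ j, Amat q i j * vv (q j) c + lg 3 (q i) * ∑ j, vv (q j) c * lg (-1) (q j) +
          lg 2 (q i) * vv 2 c + lg 2 (q i) * vv (q i) c + lg p (q i) * vv (q i) c = 0
        linear_combination h1 - lg (-1) (q i) * e0 - lg 3 (q i) * hv3
    have hz0 := hM.1 _ hz
    have hz2 : vv 2 c = 0 := congrFun hz0 none
    have hzi : ∀ i, vv (q i) c = 0 := fun i => congrFun hz0 (some i)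
    have hz3 : vv 3 c = 0 := by
      rw [hv3]
      exact Finset.sum_eq_zero fun j _ => by rw [hzi j, zero_mul]
    refine square_of hc ?_ hz2 hzi
    intro r hr hr2 hrq
    by_cases hr3 : r = 3
    · rw [hr3]
      exact hz3
    · exact hsup r hr hr2 hr3 hrq
  · obtain ⟨i1, i2, i3⟩ := inv_square h.ne1 hsq
    have hsup : ∀ r : ℕ, r.Prime → r ≠ 2 → r ≠ 3 → (∀ i, r ≠ q i) → vv r (c - 9 * d * w ^ 2) = 0 := by
      intro r hr hr2 hr3 hrq
      by_cases hrp : r = p
      · rw [hrp]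
        exact h0
      · have : Fact r.Prime := ⟨hr⟩
        exact (h.good r hr2 hr3 (K9_supp hq hp hs hd1 hr hr2 hrp hrq)).2
    obtain ⟨e, _, he', hcl, _, h8, h3⟩ := expand3 hq hq3 h.ne3 hsup
    have hF3 : Fact (Nat.Prime 3) := ⟨Nat.prime_three⟩
    obtain ⟨b1, b2⟩ := h.three_two hd.three
    have hv3 : vv 3 (c - 9 * d * w ^ 2) = 0 := by
      have h5 := h.vv_sum 3
      rw [(i1 3 Nat.prime_three).1, b1, zero_add, zero_add] at h5
      exact h5
    have hc3 : cl 3 (c - 9 * d * w ^ 2) = 0 := by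
      have h5 := h.cl_sum 3
      rw [(i1 3 Nat.prime_three).2, b2, zero_add, zero_add] at h5
      exact h5
    have h3' := h3 hv3
    rw [hc3, add_assoc] at h3'
    have he3 := K9_eq h3'
    have l8a := (h.two_even hdm hm4).2.2 (i1 2 Nat.prime_two).1
    rw [l8a, hv3, zero_add] at h8
    have hz : (M3 q t).transpose.mulVec
        (fun o => o.elim (vv 2 (c - 9 * d * w ^ 2)) fun i => vv (q i) (c - 9 * d * w ^ 2)) = 0 := by
      funext o
      rcases o with _ | i
      · rw [M3_transpose_mul_none, Pi.zero_apply, h0']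
        show ∑ j, vv (q j) (c - 9 * d * w ^ 2) * lg 2 (q j) + l8 m * vv 2 (c - 9 * d * w ^ 2) = 0
        linear_combination h8 + (∑ j, vv (q j) (c - 9 * d * w ^ 2) * lg 2 (q j)) * h20
      · have : Fact (q i).Prime := ⟨hq.prime i⟩
        obtain ⟨m', hm, hm', hlm⟩ := K9_cof hq hp hpq hs hd1 i
        have hL := (h.loc (hq.odd i) (hq3 i) hm hm').2
        rw [hlm, (i1 _ (hq.prime i)).1, zero_mul, add_zero, ← add_assoc] at hL
        have h1 := K9_alg (hcl i) hL
        rw [M3_transpose_mul_some q hq, Pi.zero_apply, h1']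
        show ∑ j, Amat q i j * vv (q j) (c - 9 * d * w ^ 2) +
          lg (-1) (q i) * ∑ j, vv (q j) (c - 9 * d * w ^ 2) * (lg 3 (q j) + lg (-1) (q j)) +
          lg (-1) (q i) * vv (q i) (c - 9 * d * w ^ 2) +
          (lg (-1) (q i) + lg 2 (q i)) * vv 2 (c - 9 * d * w ^ 2) +
          lg 2 (q i) * vv (q i) (c - 9 * d * w ^ 2) + lg p (q i) * vv (q i) (c - 9 * d * w ^ 2) = 0
        linear_combination h1 - lg (-1) (q i) * he3 - lg 3 (q i) * hv3
    have hz0 := hM.2 _ hz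
    have hz2 : vv 2 (c - 9 * d * w ^ 2) = 0 := congrFun hz0 none
    have hzi : ∀ i, vv (q i) (c - 9 * d * w ^ 2) = 0 := fun i => congrFun hz0 (some i)
    have e0 : e = 0 := by
      rw [he3, hz2, zero_add]
      exact Finset.sum_eq_zero fun j _ => by rw [hzi j, zero_mul]
    refine square_of (he' e0) ?_ hz2 hzi
    intro r hr hr2 hrq
    by_cases hr3 : r = 3
    · rw [hr3]
      exact hv3
    · exact hsup r hr hr2 hr3 hrq

/-! END K10 -/

/-! BEGIN K11 -/

/-- Type 4: `d = 2 m`, `m = - p ∏ q i = 1 mod 4`; cofactors with `s = -2`. Step 1: `expand_one`,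
`two_even`: `l4 c = 0`: `e = ∑ z n`; `l8 c = vv 2 c * l8 m`; `loc_all`: `(M4 q t)ᵀ Z = 0`. Step 2:
`a > 0`, `l8 a = vv 2 a * l8 m`, `loc_all`: `(M4 q t) X = 0`. -/
theorem steps_four {q : ι → ℕ} (hq : OddPrimes q) {p : ℕ} (hp : p.Prime) (hpq : ∀ i, p ≠ q i)
    {d m : ℤ} (hd : Typ4 d) (hdm : d = 2 * m) (hdp : m = -(p * ∏ i, (q i : ℤ)))
    {t : Option ι → ZMod 2} (hM : Inj (M4 q t)) (h0 : t none = l8 m)
    (h1 : ∀ i, t (some i) = lg p (q i)) : Steps d p := by
  have hp' : Fact p.Prime := ⟨hp⟩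
  have h0' := h0
  have h1' := h1
  have h20 : (2 : ZMod 2) = 0 := by decide
  have hd1 : d = -2 * (p * ∏ i, (q i : ℤ)) := by
    rw [hdm, hdp]
    ring
  have hs : (-2 : ℤ) = 1 ∨ (-2 : ℤ) = -1 ∨ (-2 : ℤ) = 2 ∨ (-2 : ℤ) = -2 := Or.inr (Or.inr (Or.inr rfl))
  have hlg : ∀ i, lg (-2) (q i) = lg (-1) (q i) + lg 2 (q i) := by
    intro i
    have : Fact (q i).Prime := ⟨hq.prime i⟩
    exact lg_neg (K9_nd hq (Or.inr (Or.inr (Or.inl rfl))) i)
  have hm4 : m % 4 = 1 := by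
    have := hd.eight
    omega
  refine ⟨fun c w v h h0 => ?_, fun c w v h hsq h0 => ?_⟩
  · have hsup : ∀ r : ℕ, r.Prime → r ≠ 2 → (∀ i, r ≠ q i) → vv r c = 0 := by
      intro r hr hr2 hrq
      by_cases hrp : r = p
      · rw [hrp]
        exact h0
      · exact (good_all h hd.three hr hr2 (K9_supp hq hp hs hd1 hr hr2 hrp hrq)).1
    obtain ⟨e, _, he', hcl, h4, h8⟩ := expand_one hq h.ne1 hsup
    obtain ⟨l4c, l8c, _⟩ := h.two_even hdm hm4
    rw [l4c] at h4
    have he4 := K9_eq h4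
    rw [l8c] at h8
    have hz : (M4 q t).transpose.mulVec (fun o => o.elim (vv 2 c) fun i => vv (q i) c) = 0 := by
      funext o
      rcases o with _ | i
      · rw [M4_transpose_mul_none, Pi.zero_apply, h0']
        show ∑ j, vv (q j) c * lg 2 (q j) + l8 m * vv 2 c = 0
        linear_combination h8 + (∑ j, vv (q j) c * lg 2 (q j)) * h20
      · have : Fact (q i).Prime := ⟨hq.prime i⟩
        obtain ⟨m', hm, hm', hlm⟩ := K9_cof hq hp hpq hs hd1 i
        have hL := (loc_all h (hq.odd i) hm hm').1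
        rw [hlm, hlg] at hL
        have h1 := K9_alg (hcl i) hL
        rw [M4_transpose_mul_some q hq, Pi.zero_apply, h1']
        show ∑ j, Amat q i j * vv (q j) c + lg (-1) (q i) * ∑ j, vv (q j) c * lg (-1) (q j) +
          lg (-1) (q i) * vv (q i) c + lg 2 (q i) * vv 2 c + lg 2 (q i) * vv (q i) c +
          lg p (q i) * vv (q i) c = 0
        linear_combination h1 - lg (-1) (q i) * he4
    have hz0 := hM.2 _ hz
    have hz2 : vv 2 c = 0 := congrFun hz0 none
    have hzi : ∀ i, vv (q i) c = 0 := fun i => congrFun hz0 (some i)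
    have e0 : e = 0 := by
      rw [he4]
      exact Finset.sum_eq_zero fun j _ => by rw [hzi j, zero_mul]
    exact square_of (he' e0) hsup hz2 hzi
  · obtain ⟨i1, i2, i3⟩ := inv_square h.ne1 hsq
    have ha := h.sign_neg hd.neg
    have hsup : ∀ r : ℕ, r.Prime → r ≠ 2 → (∀ i, r ≠ q i) → vv r (c - 9 * d * w ^ 2) = 0 := by
      intro r hr hr2 hrq
      by_cases hrp : r = p
      · rw [hrp]
        exact h0
      · exact (good_all h hd.three hr hr2 (K9_supp hq hp hs hd1 hr hr2 hrp hrq)).2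
    obtain ⟨e, he, _, hcl, _, h8⟩ := expand_one hq h.ne3 hsup
    have e0 := he ha
    have l8a := (h.two_even hdm hm4).2.2 (i1 2 Nat.prime_two).1
    rw [l8a] at h8
    have hz : (M4 q t).mulVec
        (fun o => o.elim (vv 2 (c - 9 * d * w ^ 2)) fun i => vv (q i) (c - 9 * d * w ^ 2)) = 0 := by
      funext o
      rcases o with _ | i
      · rw [M4_mul_none, Pi.zero_apply, h0']
        show ∑ j, vv (q j) (c - 9 * d * w ^ 2) * lg 2 (q j) + l8 m * vv 2 (c - 9 * d * w ^ 2) = 0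
        linear_combination h8 + (∑ j, vv (q j) (c - 9 * d * w ^ 2) * lg 2 (q j)) * h20
      · have : Fact (q i).Prime := ⟨hq.prime i⟩
        obtain ⟨m', hm, hm', hlm⟩ := K9_cof hq hp hpq hs hd1 i
        have hL := (loc_all h (hq.odd i) hm hm').2 (i1 _ (hq.prime i)).1
        rw [hlm, hlg, ← add_assoc] at hL
        have h1 := K9_alg (hcl i) hL
        rw [M4_mul_some, Pi.zero_apply, h1']
        show ∑ j, Amat q i j * vv (q j) (c - 9 * d * w ^ 2) + lg 2 (q i) * vv 2 (c - 9 * d * w ^ 2) +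
          lg 2 (q i) * vv (q i) (c - 9 * d * w ^ 2) + lg p (q i) * vv (q i) (c - 9 * d * w ^ 2) = 0
        linear_combination h1 - lg (-1) (q i) * e0 -
          vv (q i) (c - 9 * d * w ^ 2) * two_zero (lg (-1) (q i))
    have hz0 := hM.1 _ hz
    exact square_of ha hsup (congrFun hz0 none) fun i => congrFun hz0 (some i)

/-! END K11 -/

/-! BEGIN K12 -/

/-- A rational number with square product with a nonzero square. -/
private theorem K12_sq {x y : ℚ} (hx : x ≠ 0) (h : IsSquare (x * y)) (hx2 : IsSquare x) :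
    IsSquare y := by
  obtain ⟨r, hr⟩ := h
  obtain ⟨s, hs⟩ := hx2
  have hs0 : s ≠ 0 := by
    rintro rfl
    exact hx (by rw [hs, mul_zero])
  refine ⟨r / s, ?_⟩
  rw [hs] at hr
  field_simp
  linear_combination hr

/-- The square class of `X` is that of `c`. -/
private theorem K12_cast {c w : ℤ} (hw : w ≠ 0) {X : ℚ} (hX : X = (c : ℚ) / (w : ℚ) ^ 2) :
    IsSquare X ↔ IsSquare c := by
  have hw' : (w : ℚ) ≠ 0 := by exact_mod_cast hw
  constructor
  · rintro ⟨r, hr⟩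
    have h1 : IsSquare (c : ℚ) := by
      refine ⟨r * w, ?_⟩
      rw [hX, div_eq_iff (pow_ne_zero 2 hw')] at hr
      rw [hr]
      ring
    exact Rat.isSquare_intCast_iff.1 h1
  · rintro ⟨r, hr⟩
    refine ⟨r / w, ?_⟩
    rw [hX, hr]
    push_cast
    field_simp

/-- If `s c c' ` is a rational square then the parities are related. -/
private theorem K12_vv {p : ℕ} (hp : p.Prime) {s c c' : ℤ} (hs : s ≠ 0) (hc : c ≠ 0)
    (hc' : c' ≠ 0) (h : IsSquare ((s : ℚ) * c * c')) : vv p c' = vv p s + vv p c := by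
  have : Fact p.Prime := ⟨hp⟩
  have h1 : IsSquare (s * c * c') := by
    have h2 : IsSquare ((s * c * c' : ℤ) : ℚ) := by
      push_cast
      exact h
    exact Rat.isSquare_intCast_iff.1 h2
  have h3 := hom_sq (f := vv p) (fun A B hA hB => vv_mul hA hB)
    (mul_ne_zero (mul_ne_zero hs hc) hc') h1
  rw [vv_mul (mul_ne_zero hs hc) hc', vv_mul hs hc] at h3
  linear_combination h3 - two_zero (vv p s + vv p c)

/-- From the steps to the four classes. For a rational point `(X, y)`, `y ≠ 0`, also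
`(9 d² / X, - 9 d² y / X²)` and `(9 d + 72 d² / (X - 9 d), 72 d² y / (X - 9 d)²)` (up to sign) are
rational points (translation by `(0, 0)` and `(9 d, 0)`). Classes: the first has `X' ~ X`,
`X' - 9 d ~ - d (X - 9 d)`; the second has `X' ~ d X`, `X' - 9 d ~ 2 (X - 9 d)`. Step A: for every point
`X` or `d X` is a square: if `vv p c = 0` by the first step; otherwise the second translate has
`c' ~ d c`, `vv p c' = 0` as `vv p d = 1` (`KPt` of the translate by `exists_kpt`; compare the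
classes: `c' / w'² = X'`, so `d c c'` is a rational square). Step B: if `X` is a square then `X - 9 d` or
`- d (X - 9 d)` is a square (second step, or the first translate). Step C: if `d X` is a square apply
step B to the second translate. -/
theorem cls_of_steps {d : ℤ} (hd : Squarefree d) {p : ℕ} (hp : p.Prime) (hp2 : p ≠ 2) (hp3 : p ≠ 3)
    (hpd : (p : ℤ) ∣ d) (h : Steps d p) (X y : ℚ) (hy : y ≠ 0)
    (hxy : y ^ 2 = X * (X - d) * (X - 9 * d)) : Cls4 d X := by
  have : Fact p.Prime := ⟨hp⟩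
  have hd0 : d ≠ 0 := hd.ne_zero
  have hdq : (d : ℚ) ≠ 0 := by exact_mod_cast hd0
  have hvd : vv p d = 1 := by
    obtain ⟨m, rfl⟩ := hpd
    have hm : ¬ (p : ℤ) ∣ m := by
      rintro ⟨k, rfl⟩
      have h1 := hd p ⟨k, by ring⟩
      rw [Int.isUnit_iff] at h1
      have := hp.one_lt
      omega
    have hm0 : m ≠ 0 := by
      rintro rfl
      exact hm (dvd_zero _)
    rw [vv_p_mul hm0, vv_of_not_dvd hm, add_zero]
  -- nonvanishing
  have nz : ∀ X y : ℚ, y ≠ 0 → y ^ 2 = X * (X - d) * (X - 9 * d) →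
      X ≠ 0 ∧ X - d ≠ 0 ∧ X - 9 * d ≠ 0 := by
    intro X y hy hxy
    have h1 : X * (X - d) * (X - 9 * d) ≠ 0 := by
      rw [← hxy]
      exact pow_ne_zero _ hy
    exact ⟨left_ne_zero_of_mul (left_ne_zero_of_mul h1), right_ne_zero_of_mul (left_ne_zero_of_mul h1),
      right_ne_zero_of_mul h1⟩
  -- the second translate
  have T2 : ∀ X y : ℚ, y ≠ 0 → y ^ 2 = X * (X - d) * (X - 9 * d) → ∃ X' y' : ℚ, y' ≠ 0 ∧
      y' ^ 2 = X' * (X' - d) * (X' - 9 * d) ∧ IsSquare (d * X * X') ∧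
      IsSquare (2 * (X - 9 * d) * (X' - 9 * d)) := by
    intro X y hy hxy
    obtain ⟨n1, n2, n3⟩ := nz X y hy hxy
    obtain ⟨A, hA⟩ : ∃ A : ℚ, X = A + 9 * d := ⟨X - 9 * d, by ring⟩
    subst hA
    have e0 : A + 9 * (d : ℚ) - 9 * d = A := by ring
    rw [e0] at n3 hxy ⊢
    refine ⟨9 * d + 72 * d ^ 2 / A, 72 * d ^ 2 * y / A ^ 2, ?_, ?_, ?_, ?_⟩
    · exact div_ne_zero (mul_ne_zero (mul_ne_zero (by norm_num) (pow_ne_zero _ hdq)) hy)
        (pow_ne_zero _ n3)
    · have e : (72 * (d : ℚ) ^ 2 * y / A ^ 2) ^ 2 =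
          (72 * d ^ 2) ^ 2 * y ^ 2 / A ^ 4 := by
        field_simp
      rw [e, hxy]
      field_simp
      ring
    · refine ⟨3 * d * y / A, ?_⟩
      have e : 3 * (d : ℚ) * y / A * (3 * d * y / A) =
          9 * d ^ 2 * y ^ 2 / A ^ 2 := by
        field_simp
        ring
      rw [e, hxy]
      field_simp
      ring
    · refine ⟨12 * d, ?_⟩
      field_simp
      ring
  -- the first translate
  have T1 : ∀ X y : ℚ, y ≠ 0 → y ^ 2 = X * (X - d) * (X - 9 * d) → ∃ X' y' : ℚ, y' ≠ 0 ∧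
      y' ^ 2 = X' * (X' - d) * (X' - 9 * d) ∧ IsSquare (X * X') ∧
      IsSquare (-(d * (X - 9 * d)) * (X' - 9 * d)) := by
    intro X y hy hxy
    obtain ⟨n1, n2, n3⟩ := nz X y hy hxy
    refine ⟨9 * d ^ 2 / X, 9 * d ^ 2 * y / X ^ 2, ?_, ?_, ?_, ?_⟩
    · exact div_ne_zero (mul_ne_zero (mul_ne_zero (by norm_num) (pow_ne_zero _ hdq)) hy)
        (pow_ne_zero _ n1)
    · have e : (9 * (d : ℚ) ^ 2 * y / X ^ 2) ^ 2 = (9 * d ^ 2) ^ 2 * y ^ 2 / X ^ 4 := by
        field_simp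
      rw [e, hxy]
      field_simp
      ring
    · refine ⟨3 * d, ?_⟩
      field_simp
      ring
    · refine ⟨3 * d * y / X, ?_⟩
      have e : 3 * (d : ℚ) * y / X * (3 * d * y / X) = 9 * d ^ 2 * y ^ 2 / X ^ 2 := by
        field_simp
        ring
      rw [e, hxy]
      field_simp
      ring
  -- step A
  have SA : ∀ X y : ℚ, y ≠ 0 → y ^ 2 = X * (X - d) * (X - 9 * d) → IsSquare X ∨ IsSquare (d * X) := by
    intro X y hy hxy
    obtain ⟨n1, n2, n3⟩ := nz X y hy hxy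
    obtain ⟨c, w, v, hP, hX⟩ := exists_kpt d X y hy hxy
    have h01 : ∀ a : ZMod 2, a = 0 ∨ a = 1 := by decide
    rcases h01 (vv p c) with hv | hv
    · exact Or.inl ((K12_cast hP.w0 hX).2 (h.1 c w v hP hv))
    · right
      obtain ⟨X', y', hy', hxy', s1, s2⟩ := T2 X y hy hxy
      obtain ⟨c', w', v', hP', hX'⟩ := exists_kpt d X' y' hy' hxy'
      have hw : (w : ℚ) ≠ 0 := by exact_mod_cast hP.w0
      have hw' : (w' : ℚ) ≠ 0 := by exact_mod_cast hP'.w0
      have s3 : IsSquare ((d : ℚ) * c * c') := by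
        obtain ⟨r, hr⟩ := s1
        refine ⟨r * w * w', ?_⟩
        rw [hX, hX'] at hr
        field_simp at hr
        linear_combination hr
      have hv' := K12_vv hp hd0 hP.ne1 hP'.ne1 s3
      rw [hvd, hv] at hv'
      have hv'' : vv p c' = 0 := by rw [hv']; decide
      have hsq := (K12_cast hP'.w0 hX').2 (h.1 c' w' v' hP' hv'')
      have n1' := (nz X' y' hy' hxy').1
      exact K12_sq n1' (by rwa [mul_comm]) hsq
  -- step B
  have SB : ∀ X y : ℚ, y ≠ 0 → y ^ 2 = X * (X - d) * (X - 9 * d) → IsSquare X →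
      IsSquare (X - 9 * d) ∨ IsSquare (-(d * (X - 9 * d))) := by
    intro X y hy hxy hsq
    obtain ⟨n1, n2, n3⟩ := nz X y hy hxy
    obtain ⟨c, w, v, hP, hX⟩ := exists_kpt d X y hy hxy
    have hw : (w : ℚ) ≠ 0 := by exact_mod_cast hP.w0
    have hA : X - 9 * d = ((c - 9 * d * w ^ 2 : ℤ) : ℚ) / (w : ℚ) ^ 2 := by
      rw [hX]
      push_cast
      field_simp
    have h01 : ∀ a : ZMod 2, a = 0 ∨ a = 1 := by decide
    rcases h01 (vv p (c - 9 * d * w ^ 2)) with hv | hv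
    · exact Or.inl ((K12_cast hP.w0 hA).2 (h.2 c w v hP ((K12_cast hP.w0 hX).1 hsq) hv))
    · right
      obtain ⟨X', y', hy', hxy', s1, s2⟩ := T1 X y hy hxy
      obtain ⟨c', w', v', hP', hX'⟩ := exists_kpt d X' y' hy' hxy'
      have hw' : (w' : ℚ) ≠ 0 := by exact_mod_cast hP'.w0
      have hA' : X' - 9 * d = ((c' - 9 * d * w' ^ 2 : ℤ) : ℚ) / (w' : ℚ) ^ 2 := by
        rw [hX']
        push_cast
        field_simp
      have hsq' : IsSquare X' := K12_sq n1 s1 hsq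
      have s3 : IsSquare (((-d : ℤ) : ℚ) * ((c - 9 * d * w ^ 2 : ℤ) : ℚ) *
          ((c' - 9 * d * w' ^ 2 : ℤ) : ℚ)) := by
        obtain ⟨r, hr⟩ := s2
        refine ⟨r * w * w', ?_⟩
        rw [hA, hA'] at hr
        field_simp at hr
        push_cast at hr ⊢
        linear_combination hr
      have hv' := K12_vv hp (neg_ne_zero.2 hd0) hP.ne3 hP'.ne3 s3
      rw [vv_neg, hvd, hv] at hv'
      have hv'' : vv p (c' - 9 * d * w' ^ 2) = 0 := by rw [hv']; decide
      have hsq'' := (K12_cast hP'.w0 hA').2 (h.2 c' w' v' hP' ((K12_cast hP'.w0 hX').1 hsq') hv'')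
      have n3' := (nz X' y' hy' hxy').2.2
      exact K12_sq n3' (by rwa [mul_comm]) hsq''
  rcases SA X y hy hxy with hX | hX
  · rcases SB X y hy hxy hX with hA | hA
    · exact Or.inl ⟨hX, hA⟩
    · exact Or.inr (Or.inl ⟨hX, hA⟩)
  · obtain ⟨n1, n2, n3⟩ := nz X y hy hxy
    obtain ⟨X', y', hy', hxy', s1, s2⟩ := T2 X y hy hxy
    have hX' : IsSquare X' := K12_sq (mul_ne_zero hdq n1) s1 hX
    have n3' := (nz X' y' hy' hxy').2.2
    rcases SB X' y' hy' hxy' hX' with hA | hA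
    · right; right; left
      exact ⟨hX, K12_sq n3' (by rwa [mul_comm]) hA⟩
    · right; right; right
      refine ⟨hX, ?_⟩
      have h5 : IsSquare (-((d : ℚ) * (X' - 9 * d)) * (-(2 * d * (X - 9 * d)))) := by
        obtain ⟨r, hr⟩ := s2
        refine ⟨d * r, ?_⟩
        linear_combination d ^ 2 * hr
      exact K12_sq (neg_ne_zero.2 (mul_ne_zero hdq n3')) h5 hA

/-! END K12 -/

end Pool.Agent.NCD
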