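import Pool.Agent.QT.Desc2
import Pool.Agent.QT.Cls
import Pool.Agent.QG.AGen

/-!
# Descent on the quadratic twists `y² = X (X - d) (X - 9 d)` of the curve of conductor `24`
-/

namespace Pool.Agent.NCD

open Pool.Agent.PT Pool.Agent.PT.SD Pool.Agent.QT

/-- An integral form of a rational point with `y ≠ 0` of `y² = X (X - d) (X - 9 d)`: `X = c / w²`. In
the comments `a = c - 9 d w²` and `b = c - d w² = a + 8 d w²`, so `a b c = v²`. -/
structure KPt (d c w v : ℤ) : Prop where
  cop : IsCoprime c w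
  w0 : w ≠ 0
  v0 : v ≠ 0
  eq : c * (c - d * w ^ 2) * (c - 9 * d * w ^ 2) = v ^ 2

/-- `X` and `X - 9 d` have the square classes of one of the four points of order dividing two. -/
def Cls4 (d : ℤ) (X : ℚ) : Prop :=
  (IsSquare X ∧ IsSquare (X - 9 * d)) ∨
  (IsSquare X ∧ IsSquare (-(d * (X - 9 * d)))) ∨
  (IsSquare (d * X) ∧ IsSquare (2 * (X - 9 * d))) ∨
  (IsSquare (d * X) ∧ IsSquare (-(2 * d * (X - 9 * d))))

/-- The types of `d` for which the two Selmer groups can be trivial. -/
structure Typ1 (d : ℤ) : Prop where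
  sf : Squarefree d
  pos : 0 < d
  four : d % 4 = 3
  three : d % 3 ≠ 2

structure Typ2 (d : ℤ) : Prop where
  sf : Squarefree d
  neg : d < 0
  eight : d % 8 = 5
  three : d % 3 ≠ 2

structure Typ3 (d : ℤ) : Prop where
  sf : Squarefree d
  pos : 0 < d
  eight : d % 8 = 2
  three : d % 3 = 2

structure Typ4 (d : ℤ) : Prop where
  sf : Squarefree d
  neg : d < 0
  eight : d % 8 = 2
  three : d % 3 ≠ 2

end Pool.Agent.NCD
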