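import Pool.Agent.NCD.Defs

/-!
# Points on `y² = X (X - d) (X - 9 d)`: local conditions
-/

namespace Pool.Agent.NCD

open Pool.Agent.PT Pool.Agent.PT.SD Pool.Agent.QT

/-! BEGIN K1 -/

/-- As `PT.SD.exists_ipt` / `QT.exists_jpt`: write `X = r / s` in lowest terms;
`s r (r - d s) (r - 9 d s)` is the square of a rational number, so of an integer; `s` is prime to the
other three factors, so `s > 0` is a square. -/
theorem exists_kpt (d : ℤ) (X y : ℚ) (hy : y ≠ 0)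
    (h : y ^ 2 = X * (X - d) * (X - 9 * d)) :
    ∃ c w v : ℤ, KPt d c w v ∧ X = (c : ℚ) / (w : ℚ) ^ 2 := by
  have hb0 : (X.den : ℤ) ≠ 0 := by exact_mod_cast X.den_nz
  have hx : X = (X.num : ℚ) / (X.den : ℚ) := (Rat.num_div_den X).symm
  set a : ℤ := X.num with ha
  set e : ℤ := (X.den : ℤ) with he
  have hbq' : (e : ℚ) ≠ 0 := by exact_mod_cast hb0
  have hx' : X = (a : ℚ) / (e : ℚ) := by
    rw [hx, he]
    push_cast
    rfl
  have hcop : IsCoprime a e := by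
    rw [ha, he]
    exact Int.isCoprime_iff_gcd_eq_one.2 X.reduced
  have hkey : (((e * (a * (a - d * e) * (a - 9 * d * e)) : ℤ)) : ℚ) = y ^ 2 * (e : ℚ) ^ 4 := by
    rw [h, hx']
    push_cast
    field_simp
  have hsq : IsSquare (((e * (a * (a - d * e) * (a - 9 * d * e)) : ℤ)) : ℚ) := by
    refine ⟨y * e ^ 2, ?_⟩
    rw [hkey]
    ring
  rw [Rat.isSquare_intCast_iff] at hsq
  obtain ⟨c, hc⟩ := hsq
  have hc0 : c ≠ 0 := by
    rintro rfl
    apply hy
    rw [hc] at hkey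
    have h2 : y ^ 2 * (e : ℚ) ^ 4 = 0 := by
      rw [← hkey]
      simp
    rcases mul_eq_zero.1 h2 with h3 | h3
    · exact pow_eq_zero_iff two_ne_zero |>.1 h3
    · exact absurd h3 (pow_ne_zero _ hbq')
  have hcop2 : IsCoprime e (a * (a - d * e) * (a - 9 * d * e)) := by
    refine IsCoprime.mul_right (IsCoprime.mul_right hcop.symm ?_) ?_
    · have h1 : a - d * e = a + e * (-d) := by ring
      rw [h1]
      exact hcop.symm.add_mul_left_right _
    · have h1 : a - 9 * d * e = a + e * (-(9 * d)) := by ring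
      rw [h1]
      exact hcop.symm.add_mul_left_right _
  obtain ⟨w, hw⟩ := Int.sq_of_isCoprime hcop2 (by rw [hc, sq])
  have hbpos : 0 < e := by
    rw [he]
    exact_mod_cast X.den_pos
  have hbw : e = w ^ 2 := by
    rcases hw with hw | hw
    · exact hw
    · nlinarith [sq_nonneg w]
  have hw0 : w ≠ 0 := by
    rintro rfl
    rw [hbw] at hb0
    exact hb0 (by ring)
  have hwc : w ∣ c := by
    rw [← Int.pow_dvd_pow_iff two_ne_zero, sq c, ← hc, ← hbw]
    exact dvd_mul_right _ _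
  obtain ⟨v, rfl⟩ := hwc
  have hwa : IsCoprime a w := by
    rw [hbw] at hcop
    exact (IsCoprime.pow_right_iff two_pos).1 hcop
  refine ⟨a, w, v, ⟨hwa, hw0, right_ne_zero_of_mul hc0, ?_⟩, ?_⟩
  · have h1 : w ^ 2 * (a * (a - d * w ^ 2) * (a - 9 * d * w ^ 2)) = w ^ 2 * v ^ 2 := by
      rw [hbw] at hc
      linear_combination hc
    exact mul_left_cancel₀ (pow_ne_zero 2 hw0) h1
  · rw [hx', hbw]
    push_cast
    rfl

/-! END K1 -/

namespace KPt

variable {d c w v : ℤ}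

/-! BEGIN K2 -/

private theorem K2_prod (h : KPt d c w v) : c * (c - d * w ^ 2) * (c - 9 * d * w ^ 2) ≠ 0 := by
  rw [h.eq]
  exact pow_ne_zero _ h.v0

theorem ne1 (h : KPt d c w v) : c ≠ 0 := by
  intro h1
  apply K2_prod h
  rw [h1]
  ring

theorem ne2 (h : KPt d c w v) : c - d * w ^ 2 ≠ 0 := by
  intro h1
  apply K2_prod h
  rw [h1]
  ring

theorem ne3 (h : KPt d c w v) : c - 9 * d * w ^ 2 ≠ 0 := by
  intro h1
  apply K2_prod h
  rw [h1]
  ring

theorem vv_sum (h : KPt d c w v) (p : ℕ) [Fact p.Prime] :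
    vv p c + vv p (c - d * w ^ 2) + vv p (c - 9 * d * w ^ 2) = 0 := by
  rw [← vv_mul h.ne1 h.ne2, ← vv_mul (mul_ne_zero h.ne1 h.ne2) h.ne3, h.eq, vv_sq h.v0]

theorem cl_sum (h : KPt d c w v) (p : ℕ) [Fact p.Prime] :
    cl p c + cl p (c - d * w ^ 2) + cl p (c - 9 * d * w ^ 2) = 0 := by
  rw [← cl_mul h.ne1 h.ne2, ← cl_mul (mul_ne_zero h.ne1 h.ne2) h.ne3, h.eq, cl_sq h.v0]

theorem l4_sum (h : KPt d c w v) : l4 c + l4 (c - d * w ^ 2) + l4 (c - 9 * d * w ^ 2) = 0 := by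
  rw [← l4_mul h.ne1 h.ne2, ← l4_mul (mul_ne_zero h.ne1 h.ne2) h.ne3, h.eq, l4_sq h.v0]

theorem l8_sum (h : KPt d c w v) : l8 c + l8 (c - d * w ^ 2) + l8 (c - 9 * d * w ^ 2) = 0 := by
  rw [← l8_mul h.ne1 h.ne2, ← l8_mul (mul_ne_zero h.ne1 h.ne2) h.ne3, h.eq, l8_sq h.v0]

/-- `d > 0`: `c` is the largest of the three factors, the product is positive. -/
theorem sign_pos (h : KPt d c w v) (hd : 0 < d) : 0 < c := by
  have hv : 0 < v ^ 2 := by
    have := h.v0
    positivity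
  have hw : 0 ≤ d * w ^ 2 := by positivity
  have heq := h.eq
  by_contra hc
  have h4 : c ≤ 0 := not_lt.1 hc
  have h5 : c - d * w ^ 2 ≤ 0 := by linarith
  have h6 : c - 9 * d * w ^ 2 ≤ 0 := by linarith
  have h7 : 0 ≤ c * (c - d * w ^ 2) := mul_nonneg_of_nonpos_of_nonpos h4 h5
  have h8 : c * (c - d * w ^ 2) * (c - 9 * d * w ^ 2) ≤ 0 := mul_nonpos_of_nonneg_of_nonpos h7 h6
  linarith

/-- `d < 0`: `c - 9 d w²` is the largest of the three factors. -/
theorem sign_neg (h : KPt d c w v) (hd : d < 0) : 0 < c - 9 * d * w ^ 2 := by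
  have hv : 0 < v ^ 2 := by
    have := h.v0
    positivity
  have hw : d * w ^ 2 ≤ 0 := mul_nonpos_of_nonpos_of_nonneg hd.le (sq_nonneg w)
  have heq := h.eq
  by_contra hc
  have h4 : c - 9 * d * w ^ 2 ≤ 0 := not_lt.1 hc
  have h5 : c - d * w ^ 2 ≤ 0 := by linarith
  have h6 : c ≤ 0 := by linarith
  have h7 : 0 ≤ c * (c - d * w ^ 2) := mul_nonneg_of_nonpos_of_nonpos h6 h5
  have h8 : c * (c - d * w ^ 2) * (c - 9 * d * w ^ 2) ≤ 0 := mul_nonpos_of_nonneg_of_nonpos h7 h4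
  linarith

theorem not_both (h : KPt d c w v) {p : ℕ} (hp : p.Prime) (h1 : (p : ℤ) ∣ c) (h2 : (p : ℤ) ∣ w) :
    False := by
  have h3 := h.cop.isUnit_of_dvd' h1 h2
  rw [Int.isUnit_iff] at h3
  have := hp.one_lt
  omega

/-- Good primes: the three factors are pairwise prime at `r` (differences `d w², 9 d w², 8 d w²`)
if `r` does not divide `w`; otherwise they are all prime to `r`. -/
theorem good (h : KPt d c w v) (r : ℕ) [hr : Fact r.Prime] (h2 : r ≠ 2) (h3 : r ≠ 3)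
    (hd : ¬ (r : ℤ) ∣ d) : vv r c = 0 ∧ vv r (c - 9 * d * w ^ 2) = 0 := by
  have hp := hr.out
  have hP := Nat.prime_iff_prime_int.1 hp
  by_cases hw : (r : ℤ) ∣ w
  · have hc : ¬ (r : ℤ) ∣ c := fun hc => h.not_both hp hc hw
    refine ⟨vv_of_not_dvd hc, vv_of_not_dvd fun h4 => hc ?_⟩
    have h5 : (r : ℤ) ∣ 9 * d * w ^ 2 := Dvd.dvd.mul_left (dvd_pow hw two_ne_zero) _
    have h6 := dvd_add h4 h5
    rwa [sub_add_cancel] at h6
  · have hw2 : ¬ (r : ℤ) ∣ w ^ 2 := fun h4 => hw (hP.dvd_of_dvd_pow h4)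
    have hdw : ¬ (r : ℤ) ∣ d * w ^ 2 := not_dvd_mul hd hw2
    have hr2 : ¬ (r : ℤ) ∣ 2 := fun h4 => h2 ((Nat.prime_dvd_prime_iff_eq hp Nat.prime_two).1
      (by exact_mod_cast h4))
    have hr3 : ¬ (r : ℤ) ∣ 3 := fun h4 => h3 ((Nat.prime_dvd_prime_iff_eq hp Nat.prime_three).1
      (by exact_mod_cast h4))
    have h9 : ¬ (r : ℤ) ∣ 9 * (d * w ^ 2) := by
      have : ¬ (r : ℤ) ∣ 3 * 3 * (d * w ^ 2) := not_dvd_mul (not_dvd_mul hr3 hr3) hdw
      norm_num at this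
      exact this
    have h8 : ¬ (r : ℤ) ∣ 8 * (d * w ^ 2) := by
      have : ¬ (r : ℤ) ∣ 2 * 2 * 2 * (d * w ^ 2) :=
        not_dvd_mul (not_dvd_mul (not_dvd_mul hr2 hr2) hr2) hdw
      norm_num at this
      exact this
    have hs := h.vv_sum r
    by_cases hc : (r : ℤ) ∣ c
    · have e2 : ¬ (r : ℤ) ∣ c - d * w ^ 2 := fun h4 => hdw ((dvd_sub_right hc).1 h4)
      have e3 : ¬ (r : ℤ) ∣ c - 9 * d * w ^ 2 := fun h4 => h9 (by
        have h5 := (dvd_sub_right hc).1 h4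
        rwa [mul_assoc] at h5)
      rw [vv_of_not_dvd e2, vv_of_not_dvd e3, add_zero, add_zero] at hs
      exact ⟨hs, vv_of_not_dvd e3⟩
    · refine ⟨vv_of_not_dvd hc, ?_⟩
      by_cases e3 : (r : ℤ) ∣ c - 9 * d * w ^ 2
      · have e2 : ¬ (r : ℤ) ∣ c - d * w ^ 2 := fun h4 => h8 (by
          have h5 := dvd_sub h4 e3
          have h6 : c - d * w ^ 2 - (c - 9 * d * w ^ 2) = 8 * (d * w ^ 2) := by ring
          rwa [h6] at h5)
        rw [vv_of_not_dvd hc, vv_of_not_dvd e2, zero_add, zero_add] at hs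
        exact hs
      · exact vv_of_not_dvd e3

/-! END K2 -/

/-! BEGIN K3 -/

private theorem K3_v0 {A : ℤ} (h : A % 3 ≠ 0) : vv 3 A = 0 :=
  vv_of_not_dvd (by push_cast; omega)

private theorem K3_c1 {A : ℤ} (h : A % 3 = 1) : cl 3 A = 0 := by
  have : Fact (Nat.Prime 3) := ⟨Nat.prime_three⟩
  rw [cl_of_not_dvd (by push_cast; omega), lg_congr_dvd (b := 1) (by push_cast; omega), lg_one]

private theorem K3_lg2 : lg 2 3 = 1 := by
  unfold lg
  rw [if_neg (by push_cast; decide)]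

private theorem K3_c2 {A : ℤ} (h : A % 3 = 2) : cl 3 A = 1 := by
  have : Fact (Nat.Prime 3) := ⟨Nat.prime_three⟩
  rw [cl_of_not_dvd (by push_cast; omega), lg_congr_dvd (b := 2) (by push_cast; omega), K3_lg2]

private theorem K3_sq {w : ℤ} (hw : ¬ (3 : ℤ) ∣ w) : w ^ 2 % 3 = 1 := by
  have h : w % 3 = 1 ∨ w % 3 = 2 := by omega
  rw [sq, Int.mul_emod]
  rcases h with h | h <;> rw [h] <;> rfl

private theorem K3_vm {A : ℤ} (hA : A ≠ 0) : vv 3 (3 * A) = 1 + vv 3 A := by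
  have : Fact (Nat.Prime 3) := ⟨Nat.prime_three⟩
  have h := vv_p_mul (p := 3) hA
  push_cast at h
  exact h

private theorem K3_cm {A : ℤ} (hA : A ≠ 0) : cl 3 (3 * A) = cl 3 A := by
  have : Fact (Nat.Prime 3) := ⟨Nat.prime_three⟩
  have h := cl_q_mul (q := 3) hA
  push_cast at h
  exact h

private theorem K3_lgc {A B : ℤ} (h : (A - B) % 3 = 0) : lg A 3 = lg B 3 :=
  lg_congr_dvd (by push_cast; omega)

private theorem K3_cl {A : ℤ} (h : A % 3 ≠ 0) : cl 3 A = lg A 3 :=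
  cl_of_not_dvd (by push_cast; omega)

/-- The place `3`, `d = 2 mod 3`. If `3 ∣ w`: `c` is prime to `3`, the three factors are `= c mod 3`,
the product `c³` is a square, so `c = 1 = b mod 3`. If `3` does not divide `w`: `w² = 1`,
`a = c`, `b = c + 1 mod 3`: `c = 0`: `b = 1`; `c = 1`: factors `1, 2, 1`, product `2` is not a square
modulo `3`; `c = 2`: `a, c` are prime to `3` and `cl 3 a + cl 3 c = 0`, the sums give the result. -/
theorem three_two (h : KPt d c w v) (hd : d % 3 = 2) :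
    vv 3 (c - d * w ^ 2) = 0 ∧ cl 3 (c - d * w ^ 2) = 0 := by
  have hs := h.vv_sum 3
  have hc := h.cl_sum 3
  by_cases hw : (3 : ℤ) ∣ w
  · have hcn : ¬ (3 : ℤ) ∣ c := fun hcd => h.not_both Nat.prime_three (by exact_mod_cast hcd)
      (by exact_mod_cast hw)
    obtain ⟨k, rfl⟩ := hw
    have e1 : (c - d * (3 * k) ^ 2) % 3 = c % 3 := by
      have : c - d * (3 * k) ^ 2 = c + 3 * (-(3 * d * k ^ 2)) := by ring
      rw [this]
      omega
    have e2 : (c - 9 * d * (3 * k) ^ 2) % 3 = c % 3 := by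
      have : c - 9 * d * (3 * k) ^ 2 = c + 3 * (-(27 * d * k ^ 2)) := by ring
      rw [this]
      omega
    have h3 : c % 3 = 1 ∨ c % 3 = 2 := by omega
    rcases h3 with h3 | h3
    · exact ⟨K3_v0 (by omega), K3_c1 (by omega)⟩
    · exfalso
      rw [K3_c2 h3, K3_c2 (e1.trans h3), K3_c2 (e2.trans h3)] at hc
      exact absurd hc (by decide)
  · have hw2 := K3_sq hw
    have hdw : (d * w ^ 2) % 3 = 2 := by
      rw [Int.mul_emod, hd, hw2]
      rfl
    have h9 : (9 * d * w ^ 2) % 3 = 0 := by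
      have : 9 * d * w ^ 2 = 3 * (3 * d * w ^ 2) := by ring
      rw [this]
      omega
    generalize d * w ^ 2 = D at hs hc hdw ⊢
    generalize 9 * d * w ^ 2 = D9 at hs hc h9 ⊢
    have h3 : c % 3 = 0 ∨ c % 3 = 1 ∨ c % 3 = 2 := by omega
    rcases h3 with h3 | h3 | h3
    · exact ⟨K3_v0 (by omega), K3_c1 (by omega)⟩
    · exfalso
      rw [K3_c1 h3, K3_c2 (show (c - D) % 3 = 2 by omega),
        K3_c1 (show (c - D9) % 3 = 1 by omega)] at hc
      exact absurd hc (by decide)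
    · rw [K3_v0 (show c % 3 ≠ 0 by omega), K3_v0 (show (c - D9) % 3 ≠ 0 by omega),
        zero_add, add_zero] at hs
      rw [K3_c2 h3, K3_c2 (show (c - D9) % 3 = 2 by omega)] at hc
      exact ⟨hs, by linear_combination hc - two_zero 1⟩

/-- The place `3`, `d = 1 mod 3`. If `3 ∣ w` all three factors are prime to `3`. Otherwise `a = c`,
`b = c + 2 mod 3`. If `c ≠ 0 mod 3`, `a, c` are prime to `3`. If `c = 3 c'`: `b = 2 mod 3` is prime to `3`
and not a square. If `3` does not divide `c'`: `a = 3 (c' - 3 d w²)`, the unit parts of `a`, `c` are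
equal modulo `3`: the product is not a square. So `c = 9 c''`, `a = 9 (c'' - d w²)`, and one of `c''`,
`c'' - d w²` is prime to `3`: one of `vv 3 a, vv 3 c` is `0`, so both. -/
theorem three_one (h : KPt d c w v) (hd : d % 3 = 1) :
    vv 3 c = 0 ∧ vv 3 (c - 9 * d * w ^ 2) = 0 := by
  have hs := h.vv_sum 3
  have hc := h.cl_sum 3
  by_cases hw : (3 : ℤ) ∣ w
  · have hcn : ¬ (3 : ℤ) ∣ c := fun hcd => h.not_both Nat.prime_three (by exact_mod_cast hcd)
      (by exact_mod_cast hw)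
    obtain ⟨k, rfl⟩ := hw
    have e2 : (c - 9 * d * (3 * k) ^ 2) % 3 = c % 3 := by
      have : c - 9 * d * (3 * k) ^ 2 = c + 3 * (-(27 * d * k ^ 2)) := by ring
      rw [this]
      omega
    exact ⟨K3_v0 (by omega), K3_v0 (by omega)⟩
  · have hw2 := K3_sq hw
    have hdw : (d * w ^ 2) % 3 = 1 := by
      rw [Int.mul_emod, hd, hw2]
      rfl
    have e9 : 9 * d * w ^ 2 = 9 * (d * w ^ 2) := by ring
    have n1 := h.ne1
    have n3 := h.ne3
    rw [e9] at hs hc n3 ⊢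
    generalize d * w ^ 2 = D at hs hc hdw n3 ⊢
    by_cases hcd : (3 : ℤ) ∣ c
    · obtain ⟨c', rfl⟩ := hcd
      have e3 : 3 * c' - 9 * D = 3 * (c' - 3 * D) := by ring
      rw [e3] at hs hc n3 ⊢
      have m1 : c' ≠ 0 := right_ne_zero_of_mul n1
      have m3 : c' - 3 * D ≠ 0 := right_ne_zero_of_mul n3
      have hb2 : (3 * c' - D) % 3 = 2 := by omega
      rw [K3_v0 (show (3 * c' - D) % 3 ≠ 0 by omega), add_zero] at hs
      rw [K3_c2 hb2, K3_cm m1, K3_cm m3] at hc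
      by_cases hc' : (3 : ℤ) ∣ c'
      · obtain ⟨k, rfl⟩ := hc'
        have e4 : 3 * k - 3 * D = 3 * (k - D) := by ring
        rw [e4] at hs hc n3 m3 ⊢
        have k1 : k ≠ 0 := right_ne_zero_of_mul m1
        have k3 : k - D ≠ 0 := right_ne_zero_of_mul m3
        rw [K3_vm m1, K3_vm m3, K3_vm k1, K3_vm k3] at hs
        rw [K3_vm m1, K3_vm m3, K3_vm k1, K3_vm k3]
        have hs' : vv 3 k = vv 3 (k - D) := by
          linear_combination hs - 2 * two_zero 1 - two_zero (vv 3 (k - D))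
        by_cases hk : (3 : ℤ) ∣ k
        · have h0 : vv 3 (k - D) = 0 := K3_v0 (by omega)
          rw [hs', h0]
          exact ⟨by decide, by decide⟩
        · have h0 : vv 3 k = 0 := K3_v0 (by omega)
          rw [← hs', h0]
          exact ⟨by decide, by decide⟩
      · exfalso
        rw [K3_cl (show c' % 3 ≠ 0 by omega), K3_cl (show (c' - 3 * D) % 3 ≠ 0 by omega),
          K3_lgc (show (c' - 3 * D - c') % 3 = 0 by omega)] at hc
        revert hc
        generalize lg c' 3 = t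
        revert t
        decide
    · exact ⟨K3_v0 (by omega), K3_v0 (by omega)⟩

/-! END K3 -/

/-! BEGIN K3c -/

/-- The place `3`, `d = 3 m`. If `3` does not divide `c` (in particular if `3 ∣ w`): the three factors
are `= c mod 3`, so `c = 1`. Let `c = 3 c'`, `w² = 1 mod 3`; `a = 3 (c' - 9 m w²)`,
`b = 3 (c' - m w²)`. If `3` does not divide `c'`: `vv 3 a = vv 3 c = 1`, so `vv 3 b = 0` and
`3 ∣ c' - m w²`: `cl 3 c = lg m 3`, `vv 3 c = 1`. If `c' = 3 c''`: `vv 3 b = 1`,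
`cl 3 b = lg (- m) 3`; `c = 9 c''`, `a = 9 (c'' - 3 m w²)`; so `3 ∣ c''` (sum of valuations),
`c'' = 3 k`, `c = 27 k`, `a = 27 (k - m w²)`. Not both `k` and `k - m w²` are prime to `3`. If `3 ∣ k`:
`a = 27 * (- m)`, `vv 3 a = 1`, `cl 3 a = lg (-m) 3`, so `vv 3 c = 0`, `cl 3 c = 0`. If
`3 ∣ k - m w²`: `vv 3 c = 1`, `cl 3 c = lg m 3`. -/
theorem three_zero (h : KPt d c w v) {m : ℤ} (hd : d = 3 * m) (hm : ¬ (3 : ℤ) ∣ m) :
    cl 3 c = vv 3 c * lg m 3 ∧ (vv 3 c = 0 →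
      cl 3 (c - 9 * d * w ^ 2) = vv 3 (c - 9 * d * w ^ 2) * (lg (-1) 3 + lg m 3)) := by
  have hs := h.vv_sum 3
  have hc := h.cl_sum 3
  have n1 := h.ne1
  have n2 := h.ne2
  have n3 := h.ne3
  have hm3 : m % 3 ≠ 0 := by omega
  have e2 : c - d * w ^ 2 = c - 3 * (m * w ^ 2) := by rw [hd]; ring
  have e3 : c - 9 * d * w ^ 2 = c - 27 * (m * w ^ 2) := by rw [hd]; ring
  rw [e2] at hs hc n2
  rw [e3] at hs hc n3 ⊢
  have lneg : ∀ A : ℤ, A % 3 ≠ 0 → lg (-A) 3 = lg (-1) 3 + lg A 3 := by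
    intro A hA
    have : Fact (Nat.Prime 3) := ⟨Nat.prime_three⟩
    exact lg_neg (by push_cast; omega)
  by_cases hcd : (3 : ℤ) ∣ c
  · have hw : ¬ (3 : ℤ) ∣ w := fun hw => h.not_both Nat.prime_three (by exact_mod_cast hcd)
      (by exact_mod_cast hw)
    have hw2 := K3_sq hw
    have hmw : (m * w ^ 2 - m) % 3 = 0 := by
      have h5 : (m * w ^ 2) % 3 = m % 3 := by
        rw [Int.mul_emod, hw2, mul_one, Int.emod_emod]
      omega
    generalize m * w ^ 2 = M at hs hc n2 n3 hmw ⊢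
    obtain ⟨c', rfl⟩ := hcd
    have f2 : 3 * c' - 3 * M = 3 * (c' - M) := by ring
    have f3 : 3 * c' - 27 * M = 3 * (c' - 9 * M) := by ring
    rw [f2] at hs hc n2
    rw [f3] at hs hc n3 ⊢
    have m1 : c' ≠ 0 := right_ne_zero_of_mul n1
    have m2 : c' - M ≠ 0 := right_ne_zero_of_mul n2
    have m3 : c' - 9 * M ≠ 0 := right_ne_zero_of_mul n3
    rw [K3_vm m1, K3_vm m2, K3_vm m3] at hs
    rw [K3_cm m1, K3_cm m2, K3_cm m3] at hc
    rw [K3_vm m1, K3_vm m3, K3_cm m1, K3_cm m3]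
    by_cases hc' : (3 : ℤ) ∣ c'
    · obtain ⟨c2, rfl⟩ := hc'
      have g3 : 3 * c2 - 9 * M = 3 * (c2 - 3 * M) := by ring
      rw [g3] at hs hc m3 ⊢
      have k1 : c2 ≠ 0 := right_ne_zero_of_mul m1
      have k3 : c2 - 3 * M ≠ 0 := right_ne_zero_of_mul m3
      have hb0 : (3 * c2 - M) % 3 ≠ 0 := by omega
      have hb : lg (3 * c2 - M) 3 = lg (-1) 3 + lg m 3 := by
        rw [K3_lgc (show (3 * c2 - M - -m) % 3 = 0 by omega), lneg m hm3]
      rw [K3_vm k1, K3_vm k3, K3_v0 hb0] at hs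
      rw [K3_cm k1, K3_cm k3, K3_cl hb0, hb] at hc
      rw [K3_vm k1, K3_vm k3, K3_cm k1, K3_cm k3]
      by_cases hc2 : (3 : ℤ) ∣ c2
      · obtain ⟨k, rfl⟩ := hc2
        have g4 : 3 * k - 3 * M = 3 * (k - M) := by ring
        rw [g4] at hs hc k3 ⊢
        have l1 : k ≠ 0 := right_ne_zero_of_mul k1
        have l3 : k - M ≠ 0 := right_ne_zero_of_mul k3
        rw [K3_vm l1, K3_vm l3] at hs
        rw [K3_cm l1, K3_cm l3] at hc
        rw [K3_vm l1, K3_vm l3, K3_cm l1, K3_cm l3]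
        by_cases hk : (3 : ℤ) ∣ k
        · have hkM : (k - M) % 3 ≠ 0 := by omega
          have hv : vv 3 (k - M) = 0 := K3_v0 hkM
          have hl : cl 3 (k - M) = lg (-1) 3 + lg m 3 := by
            rw [K3_cl hkM, K3_lgc (show (k - M - -m) % 3 = 0 by omega), lneg m hm3]
          rw [hv] at hs ⊢
          rw [hl] at hc ⊢
          have hv1 : vv 3 k = 1 := by
            linear_combination hs - 4 * two_zero 1
          have hl1 : cl 3 k = 0 := by
            linear_combination hc - two_zero (lg (-1) 3 + lg m 3)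
          rw [hv1, hl1]
          refine ⟨?_, fun _ => ?_⟩
          · linear_combination (-2 * lg m 3) * two_zero 1
          · linear_combination (-(lg (-1) 3 + lg m 3)) * two_zero 1
        · by_cases hkM : (3 : ℤ) ∣ k - M
          · have hk3 : k % 3 ≠ 0 := by omega
            have hv : vv 3 k = 0 := K3_v0 hk3
            have hl : cl 3 k = lg m 3 := by
              rw [K3_cl hk3, K3_lgc (show (k - m) % 3 = 0 by omega)]
            rw [hv, hl]
            refine ⟨?_, fun h0 => absurd h0 (by decide)⟩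
            linear_combination (-(lg m 3)) * two_zero 1
          · exfalso
            rw [K3_v0 (show k % 3 ≠ 0 by omega), K3_v0 (show (k - M) % 3 ≠ 0 by omega)] at hs
            exact absurd hs (by decide)
      · exfalso
        rw [K3_v0 (show c2 % 3 ≠ 0 by omega), K3_v0 (show (c2 - 3 * M) % 3 ≠ 0 by omega)] at hs
        exact absurd hs (by decide)
    · have hv : vv 3 c' = 0 := K3_v0 (by omega)
      have hv3 : vv 3 (c' - 9 * M) = 0 := K3_v0 (by omega)
      rw [hv, hv3] at hs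
      rw [hv]
      have hd3 : (3 : ℤ) ∣ c' - M := by
        by_contra hcon
        rw [K3_v0 (show (c' - M) % 3 ≠ 0 by omega)] at hs
        exact absurd hs (by decide)
      rw [K3_cl (show c' % 3 ≠ 0 by omega), K3_lgc (show (c' - m) % 3 = 0 by omega)]
      refine ⟨by ring, fun h0 => absurd h0 (by decide)⟩
  · generalize m * w ^ 2 = M at hs hc n2 n3 ⊢
    have hc0 : cl 3 c = 0 := by
      rw [K3_cl (show c % 3 ≠ 0 by omega), K3_cl (show (c - 3 * M) % 3 ≠ 0 by omega),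
        K3_cl (show (c - 27 * M) % 3 ≠ 0 by omega),
        K3_lgc (show (c - 3 * M - c) % 3 = 0 by omega),
        K3_lgc (show (c - 27 * M - c) % 3 = 0 by omega)] at hc
      rw [K3_cl (show c % 3 ≠ 0 by omega)]
      linear_combination hc - two_zero (lg c 3)
    have hc3 : cl 3 (c - 27 * M) = 0 := by
      rw [K3_cl (show (c - 27 * M) % 3 ≠ 0 by omega),
        K3_lgc (show (c - 27 * M - c) % 3 = 0 by omega), ← K3_cl (show c % 3 ≠ 0 by omega), hc0]
    rw [hc0, hc3, K3_v0 (show c % 3 ≠ 0 by omega), K3_v0 (show (c - 27 * M) % 3 ≠ 0 by omega)]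
    exact ⟨by ring, fun _ => by ring⟩

/-! END K3c -/

/-! BEGIN K4 -/

/-- The primes `q ∣ d`, `q ≥ 5`, `d = q m`, as `PT.SD.IPt.loc`. If `q` does not divide `c`: the three
factors are `= c mod q`, the product is a square, so all classes and valuations are `0`. If `c = q k`
(`q` does not divide `w`): the three factors are `q k`, `q (k - m w²)`, `q (k - 9 m w²)`; at most one
of `k, k - m w², k - 9 m w²` is divisible by `q`, exactly one since the sum of the three valuations is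
even; three cases: `q ∣ k`: `k - m w² = - m w²`, `k - 9 m w² = - m (3 w)²`; `q ∣ k - m w²`:
`k = m w²`, `k - 9 m w² = - 2 m (2 w)²`; `q ∣ k - 9 m w²`: `k = m (3 w)²`,
`k - m w² = 2 m (2 w)²` modulo `q`. -/
theorem loc (h : KPt d c w v) {q : ℕ} [hq : Fact q.Prime] {m : ℤ} (h2 : q ≠ 2) (h3 : q ≠ 3)
    (hd : d = q * m) (hm : ¬ (q : ℤ) ∣ m) :
    cl q c = vv q c * lg m q ∧
      cl q (c - 9 * d * w ^ 2) = vv q (c - 9 * d * w ^ 2) * (lg (-1) q + lg m q) +
        vv q c * lg 2 q := by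
  have hs := h.vv_sum q
  have hc := h.cl_sum q
  have hq2 : ¬ (q : ℤ) ∣ 2 := by
    intro h5
    have h6 : q ∣ 2 := by exact_mod_cast h5
    exact h2 ((Nat.prime_dvd_prime_iff_eq hq.out Nat.prime_two).1 h6)
  have hq3 : ¬ (q : ℤ) ∣ 3 := by
    intro h5
    have h6 : q ∣ 3 := by exact_mod_cast h5
    exact h3 ((Nat.prime_dvd_prime_iff_eq hq.out Nat.prime_three).1 h6)
  have n1 := h.ne1
  have n2 := h.ne2
  have n3 := h.ne3
  have hm1 : ¬ (q : ℤ) ∣ -1 := not_dvd_neg_one q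
  have e2 : c - d * w ^ 2 = c - q * (m * w ^ 2) := by rw [hd]; ring
  have e3 : c - 9 * d * w ^ 2 = c - q * (9 * (m * w ^ 2)) := by rw [hd]; ring
  rw [e2] at hs hc n2
  rw [e3] at hs hc n3 ⊢
  by_cases hcd : (q : ℤ) ∣ c
  · have hw : ¬ (q : ℤ) ∣ w := fun hw => h.not_both hq.out hcd hw
    have hmw : ¬ (q : ℤ) ∣ m * w ^ 2 := by
      rw [sq]
      exact not_dvd_mul hm (not_dvd_mul hw hw)
    obtain ⟨k, rfl⟩ := hcd
    have f2 : (q : ℤ) * k - q * (m * w ^ 2) = q * (k - m * w ^ 2) := by ring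
    have f3 : (q : ℤ) * k - q * (9 * (m * w ^ 2)) = q * (k - 9 * (m * w ^ 2)) := by ring
    rw [f2] at hs hc n2
    rw [f3] at hs hc n3 ⊢
    have m1 : k ≠ 0 := right_ne_zero_of_mul n1
    have m2 : k - m * w ^ 2 ≠ 0 := right_ne_zero_of_mul n2
    have m3 : k - 9 * (m * w ^ 2) ≠ 0 := right_ne_zero_of_mul n3
    rw [vv_p_mul m1, vv_p_mul m2, vv_p_mul m3] at hs
    rw [cl_q_mul m1, cl_q_mul m2, cl_q_mul m3] at hc
    rw [vv_p_mul m1, vv_p_mul m3, cl_q_mul m1, cl_q_mul m3]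
    have h3w : ¬ (q : ℤ) ∣ 3 * w := not_dvd_mul hq3 hw
    have h2w : ¬ (q : ℤ) ∣ 2 * w := not_dvd_mul hq2 hw
    -- symbols of the differences
    have s1 : ∀ A : ℤ, (q : ℤ) ∣ A - m * w ^ 2 → lg A q = lg m q := by
      intro A hA
      rw [lg_congr_dvd hA, lg_mul_sq hm hw]
    have s2 : ∀ A : ℤ, (q : ℤ) ∣ A - m * (3 * w) ^ 2 → lg A q = lg m q := by
      intro A hA
      rw [lg_congr_dvd hA, lg_mul_sq hm h3w]
    have s3 : ∀ A : ℤ, (q : ℤ) ∣ A - (-1) * m * (3 * w) ^ 2 → lg A q = lg (-1) q + lg m q := by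
      intro A hA
      rw [lg_congr_dvd hA, lg_mul_sq (not_dvd_mul hm1 hm) h3w, lg_mul hm1 hm]
    have s4 : ∀ A : ℤ, (q : ℤ) ∣ A - (-1) * m * w ^ 2 → lg A q = lg (-1) q + lg m q := by
      intro A hA
      rw [lg_congr_dvd hA, lg_mul_sq (not_dvd_mul hm1 hm) hw, lg_mul hm1 hm]
    have s5 : ∀ A : ℤ, (q : ℤ) ∣ A - (-1) * (2 * m) * (2 * w) ^ 2 →
        lg A q = lg (-1) q + (lg 2 q + lg m q) := by
      intro A hA
      rw [lg_congr_dvd hA, lg_mul_sq (not_dvd_mul hm1 (not_dvd_mul hq2 hm)) h2w,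
        lg_mul hm1 (not_dvd_mul hq2 hm), lg_mul hq2 hm]
    have s6 : ∀ A : ℤ, (q : ℤ) ∣ A - 2 * m * (2 * w) ^ 2 → lg A q = lg 2 q + lg m q := by
      intro A hA
      rw [lg_congr_dvd hA, lg_mul_sq (not_dvd_mul hq2 hm) h2w, lg_mul hq2 hm]
    have h9 : ¬ (q : ℤ) ∣ 9 * (m * w ^ 2) := by
      have : (9 : ℤ) * (m * w ^ 2) = 3 * (3 * (m * w ^ 2)) := by ring
      rw [this]
      exact not_dvd_mul hq3 (not_dvd_mul hq3 hmw)
    have h8 : ¬ (q : ℤ) ∣ 8 * (m * w ^ 2) := by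
      have : (8 : ℤ) * (m * w ^ 2) = 2 * (2 * (2 * (m * w ^ 2))) := by ring
      rw [this]
      exact not_dvd_mul hq2 (not_dvd_mul hq2 (not_dvd_mul hq2 hmw))
    by_cases hk : (q : ℤ) ∣ k
    · have o2 : ¬ (q : ℤ) ∣ k - m * w ^ 2 := fun h0 => hmw ((dvd_sub_right hk).1 h0)
      have o3 : ¬ (q : ℤ) ∣ k - 9 * (m * w ^ 2) := fun h0 => h9 ((dvd_sub_right hk).1 h0)
      have l2 : cl q (k - m * w ^ 2) = lg (-1) q + lg m q := by
        rw [cl_of_not_dvd o2]
        apply s4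
        have e : k - m * w ^ 2 - (-1) * m * w ^ 2 = k := by ring
        rwa [e]
      have l3 : cl q (k - 9 * (m * w ^ 2)) = lg (-1) q + lg m q := by
        rw [cl_of_not_dvd o3]
        apply s3
        have e : k - 9 * (m * w ^ 2) - (-1) * m * (3 * w) ^ 2 = k := by ring
        rwa [e]
      rw [vv_of_not_dvd o2, vv_of_not_dvd o3] at hs
      rw [l2, l3] at hc
      have v1 : vv q k = 1 := by linear_combination hs - 2 * two_zero 1
      have c1 : cl q k = 0 := by linear_combination hc - two_zero (lg (-1) q + lg m q)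
      rw [v1, c1, l3, vv_of_not_dvd o3]
      constructor
      · linear_combination (-(lg m q)) * two_zero 1
      · linear_combination (-(lg 2 q)) * two_zero 1
    · by_cases hk2 : (q : ℤ) ∣ k - m * w ^ 2
      · have o3 : ¬ (q : ℤ) ∣ k - 9 * (m * w ^ 2) := by
          intro h0
          apply h8
          have e : 8 * (m * w ^ 2) = (k - m * w ^ 2) - (k - 9 * (m * w ^ 2)) := by ring
          rw [e]
          exact dvd_sub hk2 h0
        have l1 : cl q k = lg m q := by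
          rw [cl_of_not_dvd hk]
          exact s1 _ hk2
        have l3 : cl q (k - 9 * (m * w ^ 2)) = lg (-1) q + (lg 2 q + lg m q) := by
          rw [cl_of_not_dvd o3]
          apply s5
          have e : k - 9 * (m * w ^ 2) - (-1) * (2 * m) * (2 * w) ^ 2 = k - m * w ^ 2 := by ring
          rwa [e]
        rw [l1, l3, vv_of_not_dvd hk, vv_of_not_dvd o3]
        constructor
        · ring
        · ring
      · by_cases hk3 : (q : ℤ) ∣ k - 9 * (m * w ^ 2)
        · have l1 : cl q k = lg m q := by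
            rw [cl_of_not_dvd hk]
            apply s2
            have e : k - m * (3 * w) ^ 2 = k - 9 * (m * w ^ 2) := by ring
            rwa [e]
          have l2 : cl q (k - m * w ^ 2) = lg 2 q + lg m q := by
            rw [cl_of_not_dvd hk2]
            apply s6
            have e : k - m * w ^ 2 - 2 * m * (2 * w) ^ 2 = k - 9 * (m * w ^ 2) := by ring
            rwa [e]
          rw [vv_of_not_dvd hk, vv_of_not_dvd hk2] at hs
          rw [l1, l2] at hc
          have v3 : vv q (k - 9 * (m * w ^ 2)) = 1 := by linear_combination hs - 2 * two_zero 1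
          have c3 : cl q (k - 9 * (m * w ^ 2)) = lg 2 q := by
            linear_combination hc - two_zero (lg m q) - two_zero (lg 2 q)
          rw [l1, v3, c3, vv_of_not_dvd hk]
          constructor
          · ring
          · linear_combination (-(lg (-1) q + lg m q)) * two_zero 1
        · exfalso
          rw [vv_of_not_dvd hk, vv_of_not_dvd hk2, vv_of_not_dvd hk3] at hs
          revert hs
          decide
  · have o2 : ¬ (q : ℤ) ∣ c - q * (m * w ^ 2) :=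
      fun h0 => hcd ((dvd_sub_left (dvd_mul_right _ _)).1 h0)
    have o3 : ¬ (q : ℤ) ∣ c - q * (9 * (m * w ^ 2)) :=
      fun h0 => hcd ((dvd_sub_left (dvd_mul_right _ _)).1 h0)
    have l2 : lg (c - q * (m * w ^ 2)) q = lg c q := by
      apply lg_congr_dvd
      have e : c - q * (m * w ^ 2) - c = q * (-(m * w ^ 2)) := by ring
      rw [e]
      exact dvd_mul_right _ _
    have l3 : lg (c - q * (9 * (m * w ^ 2))) q = lg c q := by
      apply lg_congr_dvd
      have e : c - q * (9 * (m * w ^ 2)) - c = q * (-(9 * (m * w ^ 2))) := by ring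
      rw [e]
      exact dvd_mul_right _ _
    rw [cl_of_not_dvd hcd, cl_of_not_dvd o2, cl_of_not_dvd o3, l2, l3, two_zero, zero_add] at hc
    rw [cl_of_not_dvd hcd, cl_of_not_dvd o3, l3, hc, vv_of_not_dvd hcd, vv_of_not_dvd o3]
    constructor
    · ring
    · ring

/-! END K4 -/

/-! BEGIN K5 -/

private theorem K5_two_dvd (w : ℤ) (hw : ¬ (2 : ℤ) ∣ w) : w ^ 2 % 8 = 1 := by
  have h1 : w % 8 = 1 ∨ w % 8 = 3 ∨ w % 8 = 5 ∨ w % 8 = 7 := by omega
  rw [pow_two, Int.mul_emod]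
  rcases h1 with h1 | h1 | h1 | h1 <;> rw [h1] <;> norm_num

private theorem K5_l4 {x y : ℤ} (hx : ¬ (2 : ℤ) ∣ x) (h : x % 4 = y % 4) : l4 x = l4 y := by
  rw [l4_of_odd' hx, l4_of_odd' (by omega), h]

private theorem K5_l8 {x y : ℤ} (hx : ¬ (2 : ℤ) ∣ x) (h : x % 8 = y % 8) : l8 x = l8 y := by
  rw [l8_of_odd hx, l8_of_odd (by omega), h]

private theorem K5_vv {x : ℤ} (hx : ¬ (2 : ℤ) ∣ x) : vv 2 x = 0 :=
  vv_of_not_dvd (by exact_mod_cast hx)

/-- The case `w` even. -/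
private theorem K5_even {a W : ℤ} (hW : W % 4 = 0) (ha : ¬ (2 : ℤ) ∣ a)
    (h4 : l4 (a + 9 * W) + l4 (a + 8 * W) + l4 a = 0)
    (h8 : l8 (a + 9 * W) + l8 (a + 8 * W) + l8 a = 0) :
    vv 2 (a + 9 * W) = 0 ∧ l4 (a + 9 * W) = 0 ∧ l8 (a + 9 * W) = 0 ∧ vv 2 a = 0 := by
  have e1 : l4 (a + 8 * W) = l4 a := K5_l4 (by omega) (by omega)
  have e2 : l8 (a + 8 * W) = l8 a := K5_l8 (by omega) (by omega)
  rw [e1] at h4
  rw [e2] at h8
  refine ⟨K5_vv (by omega), ?_, ?_, K5_vv ha⟩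
  · linear_combination h4 - two_zero (l4 a)
  · linear_combination h8 - two_zero (l8 a)

/-- The case `w` odd, `a` odd. -/
private theorem K5_odd {a W : ℤ} (ha : ¬ (2 : ℤ) ∣ a)
    (hs : vv 2 (a + 9 * W) + vv 2 (a + 8 * W) + vv 2 a = 0)
    (h4 : l4 (a + 9 * W) + l4 (a + 8 * W) + l4 a = 0)
    (h8 : l8 (a + 9 * W) + l8 (a + 8 * W) + l8 a = 0) :
    vv 2 (a + 9 * W) = 0 ∧ l4 (a + 9 * W) = 0 ∧ l8 (a + 9 * W) = 0 ∧ vv 2 a = 0 := by
  have e1 : l4 (a + 8 * W) = l4 a := K5_l4 (by omega) (by omega)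
  have e2 : l8 (a + 8 * W) = l8 a := K5_l8 (by omega) (by omega)
  have e3 : vv 2 (a + 8 * W) = 0 := K5_vv (by omega)
  rw [e1] at h4
  rw [e2] at h8
  rw [e3, K5_vv ha] at hs
  refine ⟨?_, ?_, ?_, K5_vv ha⟩
  · linear_combination hs
  · linear_combination h4 - two_zero (l4 a)
  · linear_combination h8 - two_zero (l8 a)

/-- The case `w` odd, `a` even, `d = 1 mod 4`. -/
private theorem K5_core {a W d : ℤ} (hd : d % 4 = 1) (hW : W % 8 = d % 8) (ha0 : a ≠ 0)
    (hb0 : a + 8 * W ≠ 0) (ha : (2 : ℤ) ∣ a)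
    (hs : vv 2 (a + 9 * W) + vv 2 (a + 8 * W) + vv 2 a = 0)
    (h4 : l4 (a + 9 * W) + l4 (a + 8 * W) + l4 a = 0) :
    vv 2 (a + 9 * W) = 0 ∧ l4 (a + 9 * W) = 0 ∧ vv 2 a = 1 ∧ l8 (a + 9 * W) = l8 d := by
  have hc : ¬ (2 : ℤ) ∣ a + 9 * W := by omega
  have hvc := K5_vv hc
  rw [l4_of_odd' hc] at h4 ⊢
  obtain ⟨a1, rfl⟩ := ha
  have ha10 : a1 ≠ 0 := right_ne_zero_of_mul ha0
  have eb : 2 * a1 + 8 * W = 2 * (a1 + 4 * W) := by ring
  rw [eb] at h4 hs hb0
  have hb10 : a1 + 4 * W ≠ 0 := right_ne_zero_of_mul hb0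
  rw [l4_two_mul hb10, l4_two_mul ha10] at h4
  rw [vv_two_mul hb10, vv_two_mul ha10] at hs
  rw [vv_two_mul ha10]
  by_cases h1 : (2 : ℤ) ∣ a1
  · obtain ⟨a2, rfl⟩ := h1
    have ha20 : a2 ≠ 0 := right_ne_zero_of_mul ha10
    have eb : 2 * a2 + 4 * W = 2 * (a2 + 2 * W) := by ring
    rw [eb] at h4 hs hb10
    have hb20 : a2 + 2 * W ≠ 0 := right_ne_zero_of_mul hb10
    rw [l4_two_mul hb20, l4_two_mul ha20] at h4
    rw [vv_two_mul hb20, vv_two_mul ha20] at hs
    rw [vv_two_mul ha20]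
    by_cases h2 : (2 : ℤ) ∣ a2
    · obtain ⟨a3, rfl⟩ := h2
      have ha30 : a3 ≠ 0 := right_ne_zero_of_mul ha20
      have eb : 2 * a3 + 2 * W = 2 * (a3 + W) := by ring
      rw [eb] at hs hb20
      have hb30 : a3 + W ≠ 0 := right_ne_zero_of_mul hb20
      rw [vv_two_mul hb30, vv_two_mul ha30] at hs
      rw [vv_two_mul ha30]
      refine ⟨hvc, ?_, ?_, K5_l8 hc (by omega)⟩
      · rw [if_pos (by omega)]
      · by_cases h3 : (2 : ℤ) ∣ a3
        · rw [hvc, K5_vv (x := a3 + W) (by omega)] at hs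
          linear_combination hs - two_zero 1 - two_zero 1
        · rw [K5_vv h3]
          decide
    · exfalso
      have e1 : l4 (a2 + 2 * W) = 1 + l4 a2 := by
        rw [l4_of_odd' (by omega), l4_of_odd' h2]
        have : a2 % 4 = 1 ∨ a2 % 4 = 3 := by omega
        rcases this with h | h
        · rw [if_neg (by omega), if_pos h, add_zero]
        · rw [if_pos (by omega), if_neg (by omega)]
          decide
      rw [e1, if_pos (by omega)] at h4
      have : (1 : ZMod 2) = 0 := by linear_combination h4 - two_zero (l4 a2)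
      exact absurd this (by decide)
  · exfalso
    have e1 : l4 (a1 + 4 * W) = l4 a1 := K5_l4 (by omega) (by omega)
    rw [e1, if_neg (by omega)] at h4
    have : (1 : ZMod 2) = 0 := by linear_combination h4 - two_zero (l4 a1)
    exact absurd this (by decide)

/-- The place `2`, `d = 1 mod 4`.
* `w` even: `c` odd, `a, b` odd, `a b = a² mod 32`, so `c = 1 mod 8`; `vv 2 a = 0`.
* `w` odd, `a` odd: `b` odd, `a b = a² + 8 a d w² = 1 mod 8`, so `vv 2 c = l4 c = l8 c = 0` (sums).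
* `w` odd, `a` even: `c` is odd and `c = a + d mod 8`. Let `k` be the valuation of `a`.
  `k = 1`: `a = 2 a'`, `b = 2 (a' + 4 d w²)`: `l4 a = l4 b`, so `l4 c = 0`, but `c = 2 + d = 3 mod 4`.
  `k = 2`: `a = 4 a'`, `b = 4 (a' + 2 d w²)`: `l4 a ≠ l4 b`, so `l4 c = 1`, but `c = d = 1 mod 4`.
  `k = 3`: `a = 8 a'`: `vv 2 a = 1`, `c = d mod 8`.
  `k ≥ 4`: `b = 8 (a' + d w²)` with `a'` even: `vv 2 b = 1`, so `vv 2 a = 1`; `c = d mod 8`. -/
theorem two_one (h : KPt d c w v) (hd : d % 4 = 1) : vv 2 c = 0 ∧ l4 c = 0 ∧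
    ((vv 2 (c - 9 * d * w ^ 2) = 0 ∧ l8 c = 0) ∨ (vv 2 (c - 9 * d * w ^ 2) = 1 ∧ l8 c = l8 d)) := by
  have hs := h.vv_sum 2
  have h4 := h.l4_sum
  have h8 := h.l8_sum
  have n3 := h.ne3
  have n2 := h.ne2
  have hnb : (2 : ℤ) ∣ w → ¬ (2 : ℤ) ∣ c := fun h1 h2 =>
    h.not_both Nat.prime_two (by exact_mod_cast h2) (by exact_mod_cast h1)
  obtain ⟨W, hW⟩ : ∃ W : ℤ, W = d * w ^ 2 := ⟨_, rfl⟩
  have e1 : c - d * w ^ 2 = (c - 9 * W) + 8 * W := by rw [hW]; ring
  have e2 : c - 9 * d * w ^ 2 = c - 9 * W := by rw [hW]; ring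
  rw [e1, e2] at hs h4 h8
  rw [e1] at n2
  rw [e2] at n3 ⊢
  obtain ⟨a, ha⟩ : ∃ a : ℤ, a = c - 9 * W := ⟨_, rfl⟩
  have hc : c = a + 9 * W := by rw [ha]; ring
  rw [← ha] at hs h4 h8 n2 n3 ⊢
  rw [hc] at hs h4 h8 hnb ⊢
  by_cases hw : (2 : ℤ) ∣ w
  · have hW4 : W % 4 = 0 := by
      obtain ⟨k, rfl⟩ := hw
      have : W = 4 * (d * k ^ 2) := by rw [hW]; ring
      omega
    have hao : ¬ (2 : ℤ) ∣ a := by
      have := hnb hw
      omega
    obtain ⟨r1, r2, r3, r4⟩ := K5_even hW4 hao h4 h8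
    exact ⟨r1, r2, Or.inl ⟨r4, r3⟩⟩
  · have hw2 := K5_two_dvd w hw
    have hW8 : W % 8 = d % 8 := by
      rw [hW, Int.mul_emod, hw2, mul_one, Int.emod_emod_of_dvd _ (dvd_refl 8)]
    by_cases hao : (2 : ℤ) ∣ a
    · obtain ⟨r1, r2, r3, r4⟩ := K5_core hd hW8 n3 n2 hao hs h4
      exact ⟨r1, r2, Or.inr ⟨r3, r4⟩⟩
    · obtain ⟨r1, r2, r3, r4⟩ := K5_odd hao hs h4 h8
      exact ⟨r1, r2, Or.inl ⟨r4, r3⟩⟩

/-! END K5 -/

/-! BEGIN K5b -/

/-- The place `2`, `d = 3 mod 4`.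
* `w` even: `c = 1 mod 8` as above, `a = c - 9 d w² = c mod 4`, so `l4 a = 0`, `vv 2 a = 0`.
* `w` odd, `a` odd: `vv 2 c = l4 c = l8 c = 0` as above; `a = 3 mod 4` is impossible: `c = a + 9 d w²`
  would be `2 mod 4` with odd valuation. So `l4 a = 0`.
* `w` odd, `a` even: `c` odd, `c = a + d mod 8`. `k = 1`: `a = 2 a'`, `b = 2 (a' + 4 d w²)`:
  `l8 a ≠ l8 b`, so `l8 c = 1`. `k = 2`: `l4 a ≠ l4 b`, so `l4 c = 1`. `k ≥ 3`: `c = d mod 8`, `l4 c = 1`. -/
theorem two_three (h : KPt d c w v) (hd : d % 4 = 3) : vv 2 c = 0 ∧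
    (l4 c = 0 → l8 c = 0 → vv 2 (c - 9 * d * w ^ 2) = 0 ∧ l4 (c - 9 * d * w ^ 2) = 0) := by
  have hs := h.vv_sum 2
  have hl4 := h.l4_sum
  have hl8 := h.l8_sum
  have n3 := h.ne3
  have n2 := h.ne2
  have e2 : c - d * w ^ 2 = c - 9 * d * w ^ 2 + 8 * (d * w ^ 2) := by ring
  rw [e2] at hs hl4 hl8 n2
  obtain ⟨a, ha⟩ : ∃ a, a = c - 9 * d * w ^ 2 := ⟨_, rfl⟩
  have hca : c = a + 9 * (d * w ^ 2) := by rw [ha]; ring
  rw [← ha] at hs hl4 hl8 n3 n2 ⊢
  by_cases hw : (2 : ℤ) ∣ w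
  · have hcn : ¬ (2 : ℤ) ∣ c := fun hcd => h.not_both Nat.prime_two (by exact_mod_cast hcd)
      (by exact_mod_cast hw)
    have hD : (d * w ^ 2) % 4 = 0 := by
      obtain ⟨k, rfl⟩ := hw
      have : d * (2 * k) ^ 2 = 4 * (d * k ^ 2) := by ring
      rw [this]
      omega
    generalize d * w ^ 2 = D at hca hD
    have hao : ¬ (2 : ℤ) ∣ a := by omega
    refine ⟨vv_odd hcn, fun h4 _ => ⟨vv_odd hao, ?_⟩⟩
    rw [l4_iff hcn] at h4
    rw [l4_iff hao]
    omega
  · have hw2 := sq_mod_eight hw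
    have hD : (d * w ^ 2) % 8 = d % 8 := by
      rw [Int.mul_emod, hw2, mul_one, Int.emod_emod]
    generalize d * w ^ 2 = D at hs hl4 hl8 n2 hca hD
    by_cases hae : (2 : ℤ) ∣ a
    · have hco : ¬ (2 : ℤ) ∣ c := by omega
      refine ⟨vv_odd hco, fun h4 h8 => ?_⟩
      exfalso
      rw [h4, zero_add] at hl4
      rw [h8, zero_add] at hl8
      obtain ⟨a1, rfl⟩ := hae
      have f2 : 2 * a1 + 8 * D = 2 * (a1 + 4 * D) := by ring
      rw [f2] at hl4 hl8 n2
      have m3 : a1 ≠ 0 := right_ne_zero_of_mul n3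
      have m2 : a1 + 4 * D ≠ 0 := right_ne_zero_of_mul n2
      rw [l4_two_mul m2, l4_two_mul m3] at hl4
      rw [l8_two_mul m2, l8_two_mul m3] at hl8
      by_cases h1 : (2 : ℤ) ∣ a1
      · obtain ⟨a2, rfl⟩ := h1
        have f3 : 2 * a2 + 4 * D = 2 * (a2 + 2 * D) := by ring
        rw [f3] at hl4 m2
        have k3 : a2 ≠ 0 := right_ne_zero_of_mul m3
        have k2 : a2 + 2 * D ≠ 0 := right_ne_zero_of_mul m2
        rw [l4_two_mul k2, l4_two_mul k3] at hl4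
        by_cases h2 : (2 : ℤ) ∣ a2
        · rw [l4_iff hco] at h4
          omega
        · rw [l4_of_odd' (show ¬ (2 : ℤ) ∣ a2 + 2 * D by omega), l4_of_odd' h2] at hl4
          have h5 : (a2 + 2 * D) % 4 = 1 ∧ a2 % 4 = 3 ∨ (a2 + 2 * D) % 4 = 3 ∧ a2 % 4 = 1 := by
            omega
          rcases h5 with h5 | h5
          · rw [if_pos h5.1, if_neg (by omega)] at hl4
            exact absurd hl4 (by decide)
          · rw [if_neg (by omega), if_pos h5.2] at hl4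
            exact absurd hl4 (by decide)
      · rw [l8_of_odd (show ¬ (2 : ℤ) ∣ a1 + 4 * D by omega), l8_of_odd h1] at hl8
        have h5 : (((a1 + 4 * D) % 8 = 1 ∨ (a1 + 4 * D) % 8 = 7) ∧ ¬ (a1 % 8 = 1 ∨ a1 % 8 = 7)) ∨
            (¬ ((a1 + 4 * D) % 8 = 1 ∨ (a1 + 4 * D) % 8 = 7) ∧ (a1 % 8 = 1 ∨ a1 % 8 = 7)) := by
          omega
        rcases h5 with h5 | h5
        · rw [if_pos h5.1, if_neg h5.2] at hl8
          exact absurd hl8 (by decide)
        · rw [if_neg h5.1, if_pos h5.2] at hl8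
          exact absurd hl8 (by decide)
    · have hbo : ¬ (2 : ℤ) ∣ a + 8 * D := by omega
      rw [vv_odd hbo, vv_odd hae, add_zero, add_zero] at hs
      refine ⟨hs, fun h4 _ => ⟨vv_odd hae, ?_⟩⟩
      rw [l4_iff hae]
      by_contra hcon
      have hc2 : c = 2 * (c / 2) := by omega
      have hco : ¬ (2 : ℤ) ∣ c / 2 := by omega
      rw [hc2, vv_two_odd hco] at hs
      exact absurd hs (by decide)

/-! END K5b -/

/-! BEGIN K5c -/

/-- The place `2`, `d = 2 m`, `m = 1 mod 4`: `b = a + 16 m w²`, `c = a + 18 m w²`.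
* `w` even: `c` odd, `a, b` odd, `a = b mod 8`, so `c = 1 mod 8` and `a = c = 1 mod 8`.
* `w` odd, `a` odd: `a = b mod 16`, `c` odd, so `c = 1 mod 8`, `a = 1 - 18 m = 7 mod 8`: `l8 a = 0`.
* `w` odd, `a = 2 a1`: `b = 2 (a1 + 8 m w²)`, `c = 2 (a1 + 9 m w²)`. `a1` odd: `a1 = a1 + 8 m w² mod 8`,
  so `vv 2 c = l4 c = l8 c = 0`; `vv 2 a = 1`; `a1 + 9 m w² = 2^j c0` with `j` odd and `c0 = 1 mod 8`:
  `j = 1`: `a1 = 2 - m mod 8`, which is `m mod 8` for `m = 1, 5`; `j ≥ 3`: `a1 = - m mod 8`; so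
  `l8 a1 = l8 m`. `a1 = 2 a2`: `a = 4 a2`, `b = 4 (a2 + 4 m w²)`, `c = 2 (2 a2 + 9 m w²)`,
  `vv 2 c = 1`. `a2` odd is impossible (valuations); `a2 = 2 a3`: `a = 8 a3`, `b = 8 (a3 + 2 m w²)`:
  `a3` odd is impossible; `a3` even: `c = 2 (8 a4 + 9 m w²)`, odd part `= m mod 8`. -/
theorem two_even (h : KPt d c w v) {m : ℤ} (hd : d = 2 * m) (hm : m % 4 = 1) :
    l4 c = 0 ∧ l8 c = vv 2 c * l8 m ∧
      (vv 2 c = 0 → l8 (c - 9 * d * w ^ 2) = vv 2 (c - 9 * d * w ^ 2) * l8 m) := by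
  have hs := h.vv_sum 2
  have hl4 := h.l4_sum
  have hl8 := h.l8_sum
  have n1 := h.ne1
  have n3 := h.ne3
  have n2 := h.ne2
  have e2 : c - d * w ^ 2 = c - 9 * d * w ^ 2 + 16 * (m * w ^ 2) := by rw [hd]; ring
  rw [e2] at hs hl4 hl8 n2
  obtain ⟨a, ha⟩ : ∃ a, a = c - 9 * d * w ^ 2 := ⟨_, rfl⟩
  have hca : c = a + 18 * (m * w ^ 2) := by rw [ha, hd]; ring
  rw [← ha] at hs hl4 hl8 n3 n2 ⊢
  have hmo : ¬ (2 : ℤ) ∣ m := by omega
  -- equal classes
  have key : ∀ A B : ℤ, ¬ (2 : ℤ) ∣ A → A % 8 = B % 8 → l4 A = l4 B ∧ l8 A = l8 B := by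
    intro A B hA hAB
    have hB : ¬ (2 : ℤ) ∣ B := by omega
    have h4 : A % 4 = B % 4 := by omega
    rw [l4_of_odd' hA, l4_of_odd' hB, l8_of_odd hA, l8_of_odd hB, hAB, h4]
    exact ⟨rfl, rfl⟩
  by_cases hw : (2 : ℤ) ∣ w
  · have hcn : ¬ (2 : ℤ) ∣ c := fun hcd => h.not_both Nat.prime_two (by exact_mod_cast hcd)
      (by exact_mod_cast hw)
    have hD : (m * w ^ 2) % 4 = 0 := by
      obtain ⟨k, rfl⟩ := hw
      have : m * (2 * k) ^ 2 = 4 * (m * k ^ 2) := by ring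
      rw [this]
      omega
    generalize m * w ^ 2 = D at hs hl4 hl8 n2 hca hD
    have hao : ¬ (2 : ℤ) ∣ a := by omega
    obtain ⟨k1, k2⟩ := key a (a + 16 * D) hao (by omega)
    obtain ⟨k3, k4⟩ := key a c hao (by omega)
    rw [← k1] at hl4
    rw [← k2] at hl8
    have c4 : l4 c = 0 := by linear_combination hl4 - two_zero (l4 a)
    have c8 : l8 c = 0 := by linear_combination hl8 - two_zero (l8 a)
    rw [c4, c8, k4, c8, vv_odd hcn, vv_odd hao]
    exact ⟨rfl, by ring, fun _ => by ring⟩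
  · have hw2 := sq_mod_eight hw
    have hD : (m * w ^ 2) % 8 = m % 8 := by
      rw [Int.mul_emod, hw2, mul_one, Int.emod_emod]
    generalize m * w ^ 2 = D at hs hl4 hl8 n2 hca hD
    by_cases hae : (2 : ℤ) ∣ a
    · obtain ⟨a1, rfl⟩ := hae
      have f2 : 2 * a1 + 16 * D = 2 * (a1 + 8 * D) := by ring
      have f1 : 2 * a1 + 18 * D = 2 * (a1 + 9 * D) := by ring
      rw [f2] at hl4 hl8 n2 hs
      rw [f1] at hca
      subst hca
      have m1 : a1 + 9 * D ≠ 0 := right_ne_zero_of_mul n1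
      have m3 : a1 ≠ 0 := right_ne_zero_of_mul n3
      have m2 : a1 + 8 * D ≠ 0 := right_ne_zero_of_mul n2
      rw [vv_two_mul m1, vv_two_mul m2, vv_two_mul m3] at hs
      rw [l4_two_mul m1, l4_two_mul m2, l4_two_mul m3] at hl4
      rw [l8_two_mul m1, l8_two_mul m2, l8_two_mul m3] at hl8
      rw [l4_two_mul m1, l8_two_mul m1, l8_two_mul m3, vv_two_mul m1, vv_two_mul m3]
      by_cases h1 : (2 : ℤ) ∣ a1
      · have hc1 : ¬ (2 : ℤ) ∣ a1 + 9 * D := by omega
        rw [vv_odd hc1] at hs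
        obtain ⟨a2, rfl⟩ := h1
        have f3 : 2 * a2 + 8 * D = 2 * (a2 + 4 * D) := by ring
        rw [f3] at hs m2
        have k3 : a2 ≠ 0 := right_ne_zero_of_mul m3
        have k2 : a2 + 4 * D ≠ 0 := right_ne_zero_of_mul m2
        rw [vv_two_mul k2, vv_two_mul k3] at hs
        by_cases h2 : (2 : ℤ) ∣ a2
        · obtain ⟨a3, rfl⟩ := h2
          have f4 : 2 * a3 + 4 * D = 2 * (a3 + 2 * D) := by ring
          rw [f4] at hs k2
          have j3 : a3 ≠ 0 := right_ne_zero_of_mul k3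
          have j2 : a3 + 2 * D ≠ 0 := right_ne_zero_of_mul k2
          rw [vv_two_mul j2, vv_two_mul j3] at hs
          by_cases h3 : (2 : ℤ) ∣ a3
          · obtain ⟨q1, q2⟩ := key (2 * (2 * a3) + 9 * D) m hc1 (by omega)
            rw [q1, q2, vv_odd hc1, (l4_iff hmo).2 hm]
            exact ⟨rfl, by ring, fun h0 => absurd h0 (by decide)⟩
          · exfalso
            rw [vv_odd h3, vv_odd (show ¬ (2 : ℤ) ∣ a3 + 2 * D by omega)] at hs
            exact absurd hs (by decide)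
        · exfalso
          rw [vv_odd h2, vv_odd (show ¬ (2 : ℤ) ∣ a2 + 4 * D by omega)] at hs
          exact absurd hs (by decide)
      · have hbo : ¬ (2 : ℤ) ∣ a1 + 8 * D := by omega
        rw [vv_odd hbo, vv_odd h1] at hs
        obtain ⟨k1, k2⟩ := key a1 (a1 + 8 * D) h1 (by omega)
        rw [← k1] at hl4
        rw [← k2] at hl8
        have c4 : l4 (a1 + 9 * D) = 0 := by linear_combination hl4 - two_zero (l4 a1)
        have c8 : l8 (a1 + 9 * D) = 0 := by linear_combination hl8 - two_zero (l8 a1)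
        have cv : vv 2 (a1 + 9 * D) = 1 := by linear_combination hs - 2 * two_zero 1
        rw [c4, c8, cv, vv_odd h1]
        refine ⟨rfl, by linear_combination (-(l8 m)) * two_zero 1, fun _ => ?_⟩
        rw [add_zero, one_mul]
        obtain ⟨c2, hc2⟩ : (2 : ℤ) ∣ a1 + 9 * D := by omega
        have n0 : c2 ≠ 0 := by
          rintro rfl
          exact m1 (by rw [hc2]; ring)
        rw [hc2] at c4 c8 cv
        rw [l4_two_mul n0] at c4
        rw [l8_two_mul n0] at c8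
        rw [vv_two_mul n0] at cv
        by_cases hc2e : (2 : ℤ) ∣ c2
        · obtain ⟨c3, rfl⟩ := hc2e
          have n00 : c3 ≠ 0 := right_ne_zero_of_mul n0
          rw [vv_two_mul n00] at cv
          have hc3 : (2 : ℤ) ∣ c3 := by
            by_contra hcon
            rw [vv_odd hcon] at cv
            exact absurd cv (by decide)
          have hm0 : m ≠ 0 := by omega
          rw [← l8_neg hm0]
          exact (key a1 (-m) h1 (by omega)).2
        · rw [l4_iff hc2e] at c4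
          rw [l8_of_odd hc2e] at c8
          have hc8 : c2 % 8 = 1 ∨ c2 % 8 = 7 := by
            by_contra hcon
            rw [if_neg hcon] at c8
            exact absurd c8 (by decide)
          exact (key a1 m h1 (by omega)).2
    · have hbo : ¬ (2 : ℤ) ∣ a + 16 * D := by omega
      have hco : ¬ (2 : ℤ) ∣ c := by omega
      obtain ⟨k1, k2⟩ := key a (a + 16 * D) hae (by omega)
      rw [← k1] at hl4
      rw [← k2] at hl8
      have c4 : l4 c = 0 := by linear_combination hl4 - two_zero (l4 a)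
      have c8 : l8 c = 0 := by linear_combination hl8 - two_zero (l8 a)
      rw [vv_odd hco, vv_odd hae]
      refine ⟨c4, by rw [c8]; ring, fun _ => ?_⟩
      rw [l4_iff hco] at c4
      rw [l8_of_odd hco] at c8
      have hc8 : c % 8 = 1 ∨ c % 8 = 7 := by
        by_contra hcon
        rw [if_neg hcon] at c8
        exact absurd c8 (by decide)
      rw [l8_of_odd hae, if_pos (by omega), zero_mul]

/-! END K5c -/

end KPt

end Pool.Agent.NCD
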