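import Pool.Agent.NCD.Class
import Pool.Agent.QT.Full

/-!
# Rank zero for the twists by primes of `y² = X (X - n) (X - 9 n)`
-/

namespace Pool.Agent.NCD

open Pool.Agent.PT Pool.Agent.PT.SD Pool.Agent.QT

/-- The curve `y² = X (X - d) (X - 9 d)` over the rational numbers. -/
def ec (d : ℤ) : WeierstrassCurve ℚ := ⟨0, -10 * (d : ℚ), 0, 9 * (d : ℚ) ^ 2, 0⟩

/-! BEGIN K16 -/

/-- If the square classes of all points with `y ≠ 0` are those of the 2-torsion, the group is finite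
(as `PT.finite_points`: `P = T + 2 Q` for every point, and heights). -/
theorem finite_ec (d : ℤ) (hd : d ≠ 0)
    (h : ∀ X y : ℚ, y ≠ 0 → y ^ 2 = X * (X - d) * (X - 9 * d) → Cls4 d X) :
    Finite (ec d).toAffine.Point := by
  have hd' : (d : ℚ) ≠ 0 := by exact_mod_cast hd
  have h1 : Finite (gcv (-10 * (d : ℚ)) (9 * (d : ℚ) ^ 2) 0).toAffine.Point := by
    refine full_finite (e1 := 0) (e2 := 9 * (d : ℚ)) (e3 := (d : ℚ)) (by ring) (by ring) (by ring)
      (fun h0 => hd' (by linarith)) (fun h0 => hd' h0.symm) (fun h0 => hd' (by linarith)) ?_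
    intro x y hy hxy
    have hs : ∀ (k a b : ℚ), k ≠ 0 → b = k ^ 2 * a → IsSquare a → IsSquare b := by
      rintro k a b _ hb ⟨r, hr⟩
      exact ⟨k * r, by rw [hb, hr]; ring⟩
    have h3 : (3 : ℚ) * d ≠ 0 := mul_ne_zero (by norm_num) hd'
    have h6 : (6 : ℚ) * d ≠ 0 := mul_ne_zero (by norm_num) hd'
    rcases h x y hy (by linear_combination hxy) with ⟨hA, hB⟩ | ⟨hA, hB⟩ | ⟨hA, hB⟩ | ⟨hA, hB⟩
    · left
      rw [sub_zero]
      exact ⟨hA, hB⟩
    · right; left
      exact ⟨hs (3 * d) _ _ h3 (by ring) hA, hs 3 _ _ (by norm_num) (by ring) hB⟩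
    · right; right; left
      exact ⟨hs 3 _ _ (by norm_num) (by ring) hA, hs (6 * d) _ _ h6 (by ring) hB⟩
    · right; right; right
      exact ⟨hs 1 _ _ one_ne_zero (by ring) hA, hs 2 _ _ two_ne_zero (by ring) hB⟩
  exact h1

/-! END K16 -/

/-- For every squarefree `n`, except the positive multiples of `6`, there are classes of primes `p`
(given by the symbols at the primes of `24 n`) such that `y² = X (X - n p) (X - 9 n p)` has finitely many rational points; `n p` has one of the four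
types. -/
theorem main_finite (n : ℤ) (hn : Squarefree n) (h6 : ¬ (0 < n ∧ (6 : ℤ) ∣ n)) :
    ∃ c : ℕ, c.Coprime (24 * n.natAbs) ∧ ∀ p : ℕ, p.Prime → ¬ p ∣ 24 * n.natAbs →
      IsSquare ((c * p : ℕ) : ZMod (24 * n.natAbs)) →
      (Typ1 (n * p) ∨ Typ2 (n * p) ∨ Typ3 (n * p) ∨ Typ4 (n * p)) ∧
      Finite (ec (n * p)).toAffine.Point := by
  have hn0 : n ≠ 0 := hn.ne_zero
  have key : ∀ p : ℕ, p.Prime → ¬ (p : ℤ) ∣ 6 * n → Squarefree (n * p) → Steps (n * p) p →
      Finite (ec (n * p)).toAffine.Point := by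
    intro p hp hpn hsf hst
    have hp2 : p ≠ 2 := by
      rintro rfl
      exact hpn (Dvd.dvd.mul_right (by norm_num) _)
    have hp3 : p ≠ 3 := by
      rintro rfl
      exact hpn (Dvd.dvd.mul_right (by norm_num) _)
    exact finite_ec _ hsf.ne_zero fun X y hy hxy =>
      cls_of_steps hsf hp hp2 hp3 (dvd_mul_left _ _) hst X y hy hxy
  rcases lt_or_gt_of_ne hn0 with hneg | hpos
  · rcases Int.emod_two_eq_zero_or_one n with h2 | h2
    · obtain ⟨c, hc, h⟩ := class_four n hn hneg h2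
      refine ⟨c, hc, fun p hp hpn hpc => ?_⟩
      obtain ⟨h1, h3, h4⟩ := h p hp hpn hpc
      exact ⟨Or.inr (Or.inr (Or.inr h3)), key p hp h1 h3.sf h4⟩
    · obtain ⟨c, hc, h⟩ := class_two n hn hneg h2
      refine ⟨c, hc, fun p hp hpn hpc => ?_⟩
      obtain ⟨h1, h3, h4⟩ := h p hp hpn hpc
      exact ⟨Or.inr (Or.inl h3), key p hp h1 h3.sf h4⟩
  · rcases Int.emod_two_eq_zero_or_one n with h2 | h2
    · obtain ⟨c, hc, h⟩ := class_three n hn hpos h2 (fun h3 => h6 ⟨hpos, by omega⟩)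
      refine ⟨c, hc, fun p hp hpn hpc => ?_⟩
      obtain ⟨h1, h3, h4⟩ := h p hp hpn hpc
      exact ⟨Or.inr (Or.inr (Or.inl h3)), key p hp h1 h3.sf h4⟩
    · obtain ⟨c, hc, h⟩ := class_one n hn hpos h2
      refine ⟨c, hc, fun p hp hpn hpc => ?_⟩
      obtain ⟨h1, h3, h4⟩ := h p hp hpn hpc
      exact ⟨Or.inl h3, key p hp h1 h3.sf h4⟩

end Pool.Agent.NCD
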